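import Pool.Agent.J4H27.GC.Defs

/-!
# Gelfond's inequality for arbitrary products of polynomials in `n` variables

GEL of project GC (helper27), written by helper75.
-/

set_option autoImplicit false

open MvPolynomial Height Filter

namespace Pool.Agent.J4H75.GC

open Pool.Agent.J4H27.GC

/-! ## The Gauss norm -/

section gn

variable {σ K : Type} [CommRing K]

/-- the Gauss norm of a polynomial -/
noncomputable def gn (v : K → ℝ) (P : MvPolynomial σ K) : ℝ := ⨆ s : σ →₀ ℕ, v (P.coeff s)

lemma fin_range {v : K → ℝ} (P : MvPolynomial σ K) :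
    (Set.range fun s : σ →₀ ℕ => v (P.coeff s)).Finite := by
  classical
  refine ((P.support.finite_toSet.image fun s => v (P.coeff s)).insert (v 0)).subset ?_
  rintro _ ⟨s, rfl⟩
  by_cases h : s ∈ P.support
  · exact Set.mem_insert_of_mem _ ⟨s, h, rfl⟩
  · left
    simp only [notMem_support_iff.1 h]

lemma le_gn (v : K → ℝ) (P : MvPolynomial σ K) (s : σ →₀ ℕ) : v (P.coeff s) ≤ gn v P :=
  le_ciSup (f := fun s : σ →₀ ℕ => v (P.coeff s)) (fin_range P).bddAbove s

lemma gn_le (v : K → ℝ) (P : MvPolynomial σ K) (B : ℝ) (h : ∀ s, v (P.coeff s) ≤ B) :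
    gn v P ≤ B := ciSup_le h

lemma exists_gn (v : K → ℝ) (P : MvPolynomial σ K) : ∃ s, gn v P = v (P.coeff s) := by
  obtain ⟨s, hs⟩ := (Set.range_nonempty fun s : σ →₀ ℕ => v (P.coeff s)).csSup_mem (fin_range P)
  exact ⟨s, hs.symm⟩

end gn

section gn2

variable {σ K : Type} [Field K]

lemma gn_pos (v : AbsoluteValue K ℝ) {P : MvPolynomial σ K} (hP : P ≠ 0) : 0 < gn v P := by
  obtain ⟨s, hs⟩ := ne_zero_iff.1 hP
  exact (v.pos hs).trans_le (le_gn v P s)

lemma gn_one (v : AbsoluteValue K ℝ) : gn v (1 : MvPolynomial σ K) = 1 := by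
  classical
  refine le_antisymm (gn_le _ _ _ fun s => ?_) ?_
  · rw [coeff_one]
    split_ifs <;> simp
  · have := le_gn v (1 : MvPolynomial σ K) 0
    simpa using this

lemma iSup_support (v : AbsoluteValue K ℝ) {P : MvPolynomial σ K} (hP : P ≠ 0) :
    (⨆ s : P.support, v (P.coeff s)) = gn v P := by
  have hne : Nonempty P.support := by
    obtain ⟨s, hs⟩ := ne_zero_iff.1 hP
    exact ⟨s, mem_support_iff.2 hs⟩
  refine le_antisymm (ciSup_le fun s => le_gn v P s) ?_
  obtain ⟨s, hs⟩ := exists_gn v P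
  have h0 := gn_pos v hP
  rw [hs] at h0 ⊢
  have h1 : s ∈ P.support := mem_support_iff.2 fun h => by rw [h, map_zero] at h0; exact lt_irrefl _ h0
  exact Finite.le_ciSup (fun s : P.support => v (P.coeff s)) ⟨s, h1⟩

/-- Gauss's lemma -/
theorem gn_mul {n : ℕ} (v : AbsoluteValue K ℝ) (hv : IsNonarchimedean v)
    {P Q : MvPolynomial (Fin n) K} (hP : P ≠ 0) (hQ : Q ≠ 0) :
    gn v (P * Q) = gn v P * gn v Q := by
  classical
  have hP0 := gn_pos v hP
  have hQ0 := gn_pos v hQ
  refine le_antisymm (gn_le _ _ _ fun s => ?_) ?_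
  · rw [coeff_mul]
    have hne : (Finset.HasAntidiagonal.antidiagonal s).Nonempty := ⟨(0, s), by simp⟩
    obtain ⟨p, hp, h⟩ := hv.finset_image_add_of_nonempty
      (fun p : (Fin n →₀ ℕ) × (Fin n →₀ ℕ) => P.coeff p.1 * Q.coeff p.2) hne
    refine h.trans ?_
    simp only [map_mul]
    exact mul_le_mul (le_gn v P _) (le_gn v Q _) (v.nonneg _) hP0.le
  · -- the dominating monomials
    let m : MonomialOrder (Fin n) := MonomialOrder.lex
    have key : ∀ R : MvPolynomial (Fin n) K, R ≠ 0 → ∃ s, gn v R = v (R.coeff s) ∧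
        ∀ t, m.toSyn s < m.toSyn t → v (R.coeff t) < gn v R := by
      intro R hR
      have hR0 := gn_pos v hR
      obtain ⟨s0, hs0⟩ := exists_gn v R
      have hs0' : s0 ∈ R.support := mem_support_iff.2 fun h => by
        rw [hs0, h, map_zero] at hR0
        exact lt_irrefl _ hR0
      obtain ⟨s, hs, hmax⟩ := Finset.exists_max_image
        (R.support.filter fun s => gn v R = v (R.coeff s)) (fun s => m.toSyn s)
        ⟨s0, Finset.mem_filter.2 ⟨hs0', hs0⟩⟩
      refine ⟨s, (Finset.mem_filter.1 hs).2, fun t ht => ?_⟩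
      refine lt_of_le_of_ne (le_gn v R t) fun h => ?_
      by_cases h1 : t ∈ R.support
      · exact absurd (hmax t (Finset.mem_filter.2 ⟨h1, h.symm⟩)) (not_le.2 ht)
      · rw [notMem_support_iff.1 h1, map_zero] at h
        exact hR0.ne h
    obtain ⟨s, hs, hs'⟩ := key P hP
    obtain ⟨t, ht, ht'⟩ := key Q hQ
    have hdom : ∀ p ∈ Finset.HasAntidiagonal.antidiagonal (s + t), p ≠ (s, t) →
        v (P.coeff p.1 * Q.coeff p.2) < v (P.coeff s * Q.coeff t) := by
      rintro ⟨a, b⟩ hab hne
      rw [Finset.HasAntidiagonal.mem_antidiagonal] at hab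
      simp only at hab ⊢
      rw [map_mul, map_mul, ← hs, ← ht]
      have h3 : m.toSyn a + m.toSyn b = m.toSyn s + m.toSyn t := by
        rw [← map_add, ← map_add, hab]
      rcases lt_trichotomy (m.toSyn s) (m.toSyn a) with h | h | h
      · exact mul_lt_mul_of_lt_of_le_of_nonneg_of_pos (hs' a h) (le_gn v Q b) (v.nonneg _) hQ0
      · have h1 : s = a := m.toSyn.injective h
        subst h1
        have h2 : b = t := by
          have := add_left_cancel hab
          exact this
        exact absurd (by rw [h2]) hne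
      · have h4 : m.toSyn t < m.toSyn b := by
          by_contra h5
          have h6 := add_lt_add_of_lt_of_le h (not_lt.1 h5)
          exact absurd h3 h6.ne
        exact mul_lt_mul_of_le_of_lt_of_nonneg_of_pos (le_gn v P a) (ht' b h4) (v.nonneg _) hP0
    have h1 : v ((P * Q).coeff (s + t)) = v (P.coeff s * Q.coeff t) := by
      rw [coeff_mul]
      exact IsNonarchimedean.apply_sum_eq_of_lt hv (fun a => (v.map_neg a).symm) (k := (s, t))
        (s := Finset.HasAntidiagonal.antidiagonal (s + t)) (Finset.HasAntidiagonal.mem_antidiagonal.2 rfl) hdom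
    calc gn v P * gn v Q = v ((P * Q).coeff (s + t)) := by rw [h1, map_mul, ← hs, ← ht]
      _ ≤ _ := le_gn v _ _

end gn2

/-! ## The archimedean places -/

section arch

open Polynomial in
lemma mahler_le (q : ℂ[X]) (hq : q ≠ 0) : ∃ z : ℂ, ‖z‖ = 1 ∧ q.mahlerMeasure ≤ ‖q.eval z‖ := by
  obtain ⟨z, hz, hmax⟩ := (isCompact_sphere (0 : ℂ) 1).exists_isMaxOn
    ⟨1, by simp⟩ (f := fun z => ‖q.eval z‖) (by fun_prop)
  have hz1 : ‖z‖ = 1 := by simpa using hz
  refine ⟨z, hz1, ?_⟩
  have hmax' : ∀ w : ℂ, ‖w‖ = 1 → ‖q.eval w‖ ≤ ‖q.eval z‖ := fun w hw =>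
    hmax (show w ∈ Metric.sphere (0 : ℂ) 1 by simpa using hw)
  have hB : 0 < ‖q.eval z‖ := by
    by_contra h
    have h0 : ∀ w : ℂ, ‖w‖ = 1 → q.eval w = 0 := fun w hw =>
      norm_le_zero_iff.1 ((hmax' w hw).trans (not_lt.1 h))
    have h1 : q = 0 := by
      refine Polynomial.eq_zero_of_infinite_isRoot q ?_
      refine Set.Infinite.mono (s := Metric.sphere (0 : ℂ) 1) (fun w hw => h0 w (by simpa using hw)) ?_
      intro hfin
      have h2 : (Set.range fun k : ℕ => Complex.exp (Complex.I * (k : ℝ))).Finite := by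
        refine hfin.subset ?_
        rintro _ ⟨k, rfl⟩
        simp only [mem_sphere_iff_norm, sub_zero]
        rw [mul_comm]
        exact Complex.norm_exp_ofReal_mul_I _
      refine Set.infinite_range_of_injective ?_ h2
      intro a b hab
      simp only at hab
      rw [Complex.exp_eq_exp_iff_exists_int] at hab
      obtain ⟨n, hn⟩ := hab
      have h3 : ((a : ℝ) : ℂ) = (b : ℝ) + n * (2 * Real.pi) := by
        have h4 : Complex.I * ((a : ℝ) : ℂ) = Complex.I * ((b : ℝ) + n * (2 * Real.pi)) := by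
          rw [hn]; ring
        exact mul_left_cancel₀ Complex.I_ne_zero h4
      have h5 : (a : ℝ) = (b : ℝ) + n * (2 * Real.pi) := by exact_mod_cast h3
      by_cases hn0 : n = 0
      · rw [hn0] at h5
        simp at h5
        exact h5
      · exfalso
        have h6 : Real.pi = ((a : ℚ) - b) / (2 * n) := by
          have : (n : ℝ) ≠ 0 := by exact_mod_cast hn0
          push_cast
          field_simp
          linarith
        apply irrational_pi
        exact ⟨((a : ℚ) - b) / (2 * n), by rw [h6]; push_cast; ring⟩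
    exact hq h1
  set B := ‖q.eval z‖ with hBdef
  have h1 : (Polynomial.C ((1 / B : ℝ) : ℂ) * q).mahlerMeasure ≤ 1 := by
    have hne : Polynomial.C ((1 / B : ℝ) : ℂ) * q ≠ 0 := by
      refine mul_ne_zero (Polynomial.C_ne_zero.2 ?_) hq
      have : (1 / B : ℝ) ≠ 0 := by positivity
      exact_mod_cast this
    rw [Polynomial.mahlerMeasure, if_pos hne, Real.exp_le_one_iff,
      Polynomial.logMahlerMeasure_def]
    have h2 : Real.circleAverage (fun _ : ℂ => (0 : ℝ)) 0 1 = 0 := Real.circleAverage_const 0 0 1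
    refine le_trans (Real.circleAverage_mono (f₂ := fun _ => (0 : ℝ)) ?_ ?_ ?_) h2.le
    · exact (analyticOnNhd_id.aeval_polynomial _).meromorphicOn.circleIntegrable_log_norm
    · exact circleIntegrable_const _ _ _
    · intro w hw
      have hw1 : ‖w‖ = 1 := by simpa using hw
      refine Real.log_nonpos (norm_nonneg _) ?_
      rw [Polynomial.eval_mul, Polynomial.eval_C, norm_mul, Complex.norm_real, Real.norm_of_nonneg
        (by positivity), div_mul_eq_mul_div, one_mul, div_le_one hB]
      exact hmax' w hw1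
  rw [Polynomial.mahlerMeasure_mul, Polynomial.mahlerMeasure_const, Complex.norm_real,
    Real.norm_of_nonneg (by positivity), div_mul_eq_mul_div, one_mul, div_le_one hB] at h1
  exact h1

/-- the coefficients of a polynomial with respect to all the variables but one -/
noncomputable def qm {n : ℕ} (P : MvPolynomial (Fin (n + 1)) ℂ) (m : Fin n →₀ ℕ) :
    Polynomial ℂ :=
  ∑ k ∈ Finset.range (P.degreeOf 0 + 1),
    Polynomial.monomial k (((finSuccEquiv ℂ n P).coeff k).coeff m)

lemma qm_coeff {n : ℕ} (P : MvPolynomial (Fin (n + 1)) ℂ) (m : Fin n →₀ ℕ) (k : ℕ) :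
    (qm P m).coeff k = P.coeff (Finsupp.cons k m) := by
  classical
  rw [qm, Polynomial.finsetSum_coeff]
  simp only [Polynomial.coeff_monomial]
  rw [Finset.sum_ite_eq']
  split_ifs with h
  · rw [finSuccEquiv_coeff_coeff]
  · rw [← finSuccEquiv_coeff_coeff, Polynomial.coeff_eq_zero_of_natDegree_lt, coeff_zero]
    rw [natDegree_finSuccEquiv]
    rw [Finset.mem_range] at h
    omega

lemma qm_natDegree {n : ℕ} (P : MvPolynomial (Fin (n + 1)) ℂ) (m : Fin n →₀ ℕ) :
    (qm P m).natDegree ≤ P.degreeOf 0 := by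
  rw [Polynomial.natDegree_le_iff_coeff_eq_zero]
  intro k hk
  rw [qm_coeff, ← finSuccEquiv_coeff_coeff, Polynomial.coeff_eq_zero_of_natDegree_lt, coeff_zero]
  rw [natDegree_finSuccEquiv]
  exact hk

/-- substitution for the variable `0` -/
noncomputable def sb {n : ℕ} (z : ℂ) (P : MvPolynomial (Fin (n + 1)) ℂ) : MvPolynomial (Fin n) ℂ :=
  Polynomial.eval (C z) (finSuccEquiv ℂ n P)

lemma sb_coeff {n : ℕ} (z : ℂ) (P : MvPolynomial (Fin (n + 1)) ℂ) (m : Fin n →₀ ℕ) :
    (sb z P).coeff m = (qm P m).eval z := by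
  rw [sb, Polynomial.eval_eq_sum_range, qm, Polynomial.eval_finsetSum, coeff_sum,
    natDegree_finSuccEquiv]
  refine Finset.sum_congr rfl fun k _ => ?_
  rw [Polynomial.eval_monomial, ← C_pow, mul_comm, coeff_C_mul, mul_comm]

lemma sb_eval {n : ℕ} (z : ℂ) (P : MvPolynomial (Fin (n + 1)) ℂ) (x : Fin n → ℂ) :
    eval x (sb z P) = eval (Fin.cons z x) P := by
  have h := Polynomial.eval₂_at_apply (p := finSuccEquiv ℂ n P) (eval x) (C z)
  rw [eval_C] at h
  rw [eval_eq_eval_mv_eval', sb, Polynomial.eval_map, h]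

lemma sb_degreeOf {n : ℕ} (z : ℂ) (P : MvPolynomial (Fin (n + 1)) ℂ) (i : Fin n) :
    (sb z P).degreeOf i ≤ P.degreeOf i.succ := by
  rw [degreeOf_le_iff]
  intro m hm
  by_contra h
  rw [mem_support_iff, sb_coeff] at hm
  apply hm
  have h0 : qm P m = 0 := by
    ext k
    rw [qm_coeff, Polynomial.coeff_zero]
    by_contra h1
    have h2 := monomial_le_degreeOf i.succ (mem_support_iff.2 h1)
    rw [Finsupp.cons_succ] at h2
    exact h h2
  rw [h0, Polynomial.eval_zero]

theorem arch_pt : ∀ (n : ℕ) {ι : Type} (s : Finset ι) (P : ι → MvPolynomial (Fin n) ℂ),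
    (∀ j ∈ s, P j ≠ 0) → ∃ x : Fin n → ℂ, (∀ i, ‖x i‖ = 1) ∧
      ∏ j ∈ s, gn norm (P j) ≤ ∏ j ∈ s, (2 ^ (∑ i, (P j).degreeOf i) * ‖eval x (P j)‖) := by
  intro n
  induction n with
  | zero =>
    intro ι s P hP
    refine ⟨Fin.elim0, fun i => i.elim0, ?_⟩
    refine Finset.prod_le_prod (fun j _ => ?_) fun j hj => ?_
    · exact (norm_nonneg _).trans (le_gn _ _ 0)
    · obtain ⟨m, hm⟩ := exists_gn norm (P j)
      rw [hm]
      simp only [Finset.univ_eq_empty, Finset.sum_empty, pow_zero, one_mul]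
      have h1 : P j = C ((P j).coeff 0) := eq_C_of_isEmpty _
      have h2 : m = 0 := Subsingleton.elim _ _
      rw [h2]
      conv_rhs => rw [h1, eval_C]
  | succ n ih =>
    intro ι s P hP
    choose m hm using fun j => exists_gn norm (P j)
    have hq : ∀ j, gn norm (P j) = ‖(qm (P j) (m j).tail).coeff (m j 0)‖ := by
      intro j
      rw [qm_coeff, Finsupp.cons_tail, hm]
    have hpos : ∀ j ∈ s, 0 < gn norm (P j) := by
      intro j hj
      obtain ⟨t, ht⟩ := ne_zero_iff.1 (hP j hj)
      exact (norm_pos_iff.2 ht).trans_le (le_gn norm (P j) t)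
    have hq0 : ∀ j ∈ s, qm (P j) (m j).tail ≠ 0 := by
      intro j hj h
      have := hpos j hj
      rw [hq, h, Polynomial.coeff_zero, norm_zero] at this
      exact lt_irrefl _ this
    have hprod : ∏ j ∈ s, qm (P j) (m j).tail ≠ 0 := Finset.prod_ne_zero_iff.2 hq0
    obtain ⟨z, hz1, hz⟩ := mahler_le _ hprod
    have hM : (∏ j ∈ s, qm (P j) (m j).tail).mahlerMeasure =
        ∏ j ∈ s, (qm (P j) (m j).tail).mahlerMeasure := by
      have := Polynomial.prod_mahlerMeasure_eq_mahlerMeasure_prod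
        (s.val.map fun j => qm (P j) (m j).tail)
      rw [Multiset.map_map] at this
      exact this
    have hM0 : 0 < ∏ j ∈ s, (qm (P j) (m j).tail).mahlerMeasure :=
      Finset.prod_pos fun j hj => Polynomial.mahlerMeasure_pos_of_ne_zero (hq0 j hj)
    rw [hM, Polynomial.eval_prod, norm_prod] at hz
    have hz0 : ∀ j ∈ s, (qm (P j) (m j).tail).eval z ≠ 0 := by
      intro j hj h
      have h1 : ∏ j ∈ s, ‖(qm (P j) (m j).tail).eval z‖ = 0 :=
        Finset.prod_eq_zero hj (by rw [h, norm_zero])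
      rw [h1] at hz
      exact absurd hM0 (not_lt.2 hz)
    have hsb : ∀ j ∈ s, sb z (P j) ≠ 0 := by
      intro j hj h
      apply hz0 j hj
      rw [← sb_coeff, h, coeff_zero]
    obtain ⟨x, hx, hle⟩ := ih s (fun j => sb z (P j)) hsb
    refine ⟨Fin.cons z x, fun i => ?_, ?_⟩
    · refine Fin.cases ?_ (fun i => ?_) i
      · rw [Fin.cons_zero]
        exact hz1
      · rw [Fin.cons_succ]
        exact hx i
    · have h1 : ∏ j ∈ s, gn norm (P j) ≤
          ∏ j ∈ s, (2 ^ ((P j).degreeOf 0) * (qm (P j) (m j).tail).mahlerMeasure) := by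
        refine Finset.prod_le_prod (fun j hj => (hpos j hj).le) fun j hj => ?_
        rw [hq]
        refine (Polynomial.norm_coeff_le_choose_mul_mahlerMeasure _ _).trans ?_
        refine mul_le_mul_of_nonneg_right ?_ (Polynomial.mahlerMeasure_nonneg _)
        have h2 : (qm (P j) (m j).tail).natDegree.choose (m j 0) ≤ 2 ^ (P j).degreeOf 0 :=
          (Nat.choose_le_two_pow _ _).trans (Nat.pow_le_pow_right (by norm_num) (qm_natDegree _ _))
        exact_mod_cast h2
      refine h1.trans ?_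
      rw [Finset.prod_mul_distrib]
      refine (mul_le_mul_of_nonneg_left hz (by positivity)).trans ?_
      have h3 : ∏ j ∈ s, ‖(qm (P j) (m j).tail).eval z‖ ≤ ∏ j ∈ s, gn norm (sb z (P j)) := by
        refine Finset.prod_le_prod (fun j _ => norm_nonneg _) fun j _ => ?_
        rw [← sb_coeff]
        exact le_gn norm _ _
      refine (mul_le_mul_of_nonneg_left (h3.trans hle) (by positivity)).trans ?_
      rw [← Finset.prod_mul_distrib]
      refine Finset.prod_le_prod (fun j _ => by positivity) fun j _ => ?_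
      rw [sb_eval, Fin.sum_univ_succ, pow_add, ← mul_assoc]
      refine mul_le_mul_of_nonneg_right ?_ (norm_nonneg _)
      refine mul_le_mul_of_nonneg_left ?_ (by positivity)
      exact pow_le_pow_right₀ (by norm_num) (Finset.sum_le_sum fun i _ => sb_degreeOf z (P j) i)

lemma norm_eval_le {n : ℕ} (P : MvPolynomial (Fin n) ℂ) (x : Fin n → ℂ) (hx : ∀ i, ‖x i‖ = 1) :
    ‖eval x P‖ ≤ 2 ^ (∑ i, P.degreeOf i) * gn norm P := by
  classical
  rw [eval_eq']
  refine (norm_sum_le _ _).trans ?_
  have h1 : ∀ d ∈ P.support, ‖P.coeff d * ∏ i, x i ^ d i‖ ≤ gn norm P := by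
    intro d _
    rw [norm_mul, norm_prod]
    simp only [norm_pow, hx, one_pow, Finset.prod_const_one, mul_one]
    exact le_gn norm P d
  refine (Finset.sum_le_card_nsmul _ _ _ h1).trans ?_
  rw [nsmul_eq_mul]
  refine mul_le_mul_of_nonneg_right ?_ ((norm_nonneg _).trans (le_gn _ _ 0))
  have h2 : P.support.card ≤ ∏ i, (P.degreeOf i + 1) := by
    have h3 : P.support.card ≤ (Fintype.piFinset fun i => Finset.range (P.degreeOf i + 1)).card := by
      refine Finset.card_le_card_of_injOn (fun d => (d : Fin n → ℕ)) ?_ ?_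
      · intro d hd
        rw [Finset.mem_coe, Fintype.mem_piFinset]
        intro i
        rw [Finset.mem_range]
        exact Nat.lt_succ_of_le (monomial_le_degreeOf i hd)
      · intro d _ e _ h
        exact DFunLike.coe_injective h
    rw [Fintype.card_piFinset] at h3
    simpa using h3
  have h4 : ∏ i, (P.degreeOf i + 1) ≤ 2 ^ (∑ i, P.degreeOf i) := by
    rw [← Finset.prod_pow_eq_pow_sum]
    exact Finset.prod_le_prod' fun i _ => Nat.lt_two_pow_self
  exact_mod_cast h2.trans h4

/-- Gelfond's inequality over the complex numbers -/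
theorem arch_C {n : ℕ} {ι : Type} (s : Finset ι) (P : ι → MvPolynomial (Fin n) ℂ)
    (hP : ∀ j ∈ s, P j ≠ 0) :
    ∏ j ∈ s, gn norm (P j) ≤ 4 ^ (∑ i, (∏ j ∈ s, P j).degreeOf i) * gn norm (∏ j ∈ s, P j) := by
  obtain ⟨x, hx, h⟩ := arch_pt n s P hP
  refine h.trans ?_
  rw [Finset.prod_mul_distrib, ← norm_prod, ← map_prod (eval x)]
  have h1 : ∏ j ∈ s, (2 : ℝ) ^ (∑ i, (P j).degreeOf i) = 2 ^ (∑ i, (∏ j ∈ s, P j).degreeOf i) := by
    rw [Finset.prod_pow_eq_pow_sum, Finset.sum_comm]
    congr 1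
    exact Finset.sum_congr rfl fun i _ => (degreeOf_prod_eq s P hP).symm
  rw [h1, show (4 : ℝ) = 2 * 2 by norm_num, mul_pow, mul_assoc]
  exact mul_le_mul_of_nonneg_left (norm_eval_le _ x hx) (by positivity)


/-- Gelfond's inequality over a number field -/
theorem arch_K {K : Type} [Field K] {n : ℕ} (v : AbsoluteValue K ℝ) (φ : K →+* ℂ)
    (hφ : ∀ x, v x = ‖φ x‖) (s : Multiset (MvPolynomial (Fin n) K)) (hs : ∀ P ∈ s, P ≠ 0) :
    (s.map (gn v)).prod ≤ 4 ^ (∑ i, s.prod.degreeOf i) * gn v s.prod := by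
  have hg : ∀ P : MvPolynomial (Fin n) K, gn v P = gn norm (map φ P) := by
    intro P
    unfold gn
    refine iSup_congr fun t => ?_
    rw [coeff_map, hφ]
  induction s using Quotient.inductionOn with
  | _ l =>
    have h1 : ((l : Multiset (MvPolynomial (Fin n) K)).map (gn v)).prod =
        ∏ i : Fin l.length, gn norm (map φ (l[i.1])) := by
      rw [Multiset.map_coe, Multiset.prod_coe, ← Fin.prod_univ_fun_getElem]
      exact Finset.prod_congr rfl fun i _ => hg _
    have h2 : (l : Multiset (MvPolynomial (Fin n) K)).prod = ∏ i : Fin l.length, l[i.1] := by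
      rw [Multiset.prod_coe, Fin.prod_univ_getElem]
    have h3 := arch_C (Finset.univ : Finset (Fin l.length)) (fun i => map φ (l[i.1])) (by
      intro i _
      rw [Ne, map_eq_zero_iff _ (map_injective φ φ.injective)]
      exact hs _ (by simp))
    simp only [Multiset.quot_mk_to_coe] at hs ⊢
    rw [h1, h2, hg, map_prod]
    refine h3.trans ?_
    refine mul_le_mul_of_nonneg_right ?_ ((norm_nonneg _).trans (le_gn _ _ 0))
    refine pow_le_pow_right₀ (by norm_num) (Finset.sum_le_sum fun i _ => ?_)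
    rw [← map_prod, degreeOf_le_iff]
    intro m hm
    exact monomial_le_degreeOf i (support_map_subset _ _ hm)

end arch

/-! ## The theorem -/

section final

variable {K : Type} [Field K] [NumberField K]

lemma finSupp {ι : Type*} [Finite ι] {x : ι → K} (hx : x ≠ 0) :
    (fun v : Height.AdmissibleAbsValues.nonarchAbsVal (K := K) ↦
      ⨆ i, v.val (x i)).HasFiniteMulSupport := by
  have : Nonempty {j // x j ≠ 0} := nonempty_subtype.mpr <| Function.ne_iff.mp hx
  suffices (fun v : Height.AdmissibleAbsValues.nonarchAbsVal (K := K) ↦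
      ⨆ i : {j // x j ≠ 0}, v.val (x i)).HasFiniteMulSupport by
    convert! this with v
    obtain ⟨i, hi⟩ : ∃ j, x j ≠ 0 := Function.ne_iff.mp hx
    have : Nonempty ι := .intro i
    refine le_antisymm (ciSup_le fun j ↦ ?_) (ciSup_le fun ⟨j, hj⟩ ↦ Finite.le_ciSup_of_le j le_rfl)
    rcases eq_or_ne (x j) 0 with h | h
    · rw [h, v.val.map_zero]
      exact Real.iSup_nonneg' ⟨⟨i, hi⟩, v.val.nonneg ..⟩
    · exact Finite.le_ciSup_of_le ⟨j, h⟩ le_rfl
  fun_prop (disch := grind)

omit [NumberField K] in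
lemma cf_ne {n : ℕ} {P : MvPolynomial (Fin n) K} (hP : P ≠ 0) :
    (fun s : P.support => P.coeff s) ≠ 0 := by
  obtain ⟨t, ht⟩ := ne_zero_iff.1 hP
  intro h
  exact ht (congrFun h ⟨t, mem_support_iff.2 ht⟩)

lemma gn_fin {n : ℕ} {P : MvPolynomial (Fin n) K} (hP : P ≠ 0) :
    (fun v : Height.AdmissibleAbsValues.nonarchAbsVal (K := K) ↦
      gn v.val P).HasFiniteMulSupport := by
  have h := finSupp (cf_ne hP)
  have h1 : (fun v : Height.AdmissibleAbsValues.nonarchAbsVal (K := K) ↦
      ⨆ s : P.support, v.val (P.coeff s)) = fun v => gn v.val P :=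
    funext fun v => iSup_support v.val hP
  rw [← h1]
  exact h

/-- the archimedean part -/
noncomputable def hA {n : ℕ} (P : MvPolynomial (Fin n) K) : ℝ :=
  ((Height.AdmissibleAbsValues.archAbsVal (K := K)).map
    fun v : AbsoluteValue K ℝ => gn v P).prod

/-- the nonarchimedean part -/
noncomputable def hF {n : ℕ} (P : MvPolynomial (Fin n) K) : ℝ :=
  ∏ᶠ v : Height.AdmissibleAbsValues.nonarchAbsVal (K := K), gn v.val P

lemma mulHeight_hA {n : ℕ} {P : MvPolynomial (Fin n) K} (hP : P ≠ 0) :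
    mulHeight (fun s : P.support => P.coeff s) = hA P * hF P := by
  rw [Height.mulHeight_eq (cf_ne hP), hA, hF]
  simp only [iSup_support _ hP]

lemma hF_mul {n : ℕ} {P Q : MvPolynomial (Fin n) K} (hP : P ≠ 0) (hQ : Q ≠ 0) :
    hF (P * Q) = hF P * hF Q := by
  unfold hF
  rw [← finprod_mul_distrib (gn_fin hP) (gn_fin hQ)]
  exact finprod_congr fun v =>
    gn_mul v.val (Height.AdmissibleAbsValues.isNonarchimedean _ v.2) hP hQ

lemma hF_prod {n : ℕ} (s : Multiset (MvPolynomial (Fin n) K)) (hs : ∀ P ∈ s, P ≠ 0) :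
    (s.map hF).prod = hF s.prod := by
  induction s using Multiset.induction_on with
  | empty =>
    rw [Multiset.map_zero, Multiset.prod_zero, Multiset.prod_zero]
    unfold hF
    exact (finprod_eq_one_of_forall_eq_one
      fun v : AdmissibleAbsValues.nonarchAbsVal (K := K) => gn_one v.val).symm
  | cons P s ih =>
    have h1 : ∀ Q ∈ s, Q ≠ 0 := fun Q hQ => hs Q (Multiset.mem_cons_of_mem hQ)
    have h2 : s.prod ≠ 0 := fun h => h1 0 (Multiset.prod_eq_zero_iff.1 h) rfl
    rw [Multiset.map_cons, Multiset.prod_cons, Multiset.prod_cons, ih h1,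
      hF_mul (hs P (Multiset.mem_cons_self _ _)) h2]

lemma hA_prod {n : ℕ} (s : Multiset (MvPolynomial (Fin n) K)) (hs : ∀ P ∈ s, P ≠ 0) :
    (s.map hA).prod ≤ (4 ^ (∑ i, s.prod.degreeOf i)) ^ totalWeight K * hA s.prod := by
  have h1 : (s.map hA).prod = ((Height.AdmissibleAbsValues.archAbsVal (K := K)).map
      fun v : AbsoluteValue K ℝ => (s.map fun P => gn v P).prod).prod := by
    unfold hA
    exact Multiset.prod_map_prod_map _ _
  rw [h1]
  refine (Multiset.prod_map_le_prod_map₀ _
    (fun v : AbsoluteValue K ℝ => (4 : ℝ) ^ (∑ i, s.prod.degreeOf i) * gn v s.prod) ?_ ?_).trans ?_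
  · intro v _
    refine Multiset.prod_map_nonneg fun P hP => (gn_pos v (hs P hP)).le
  · intro v hv
    obtain ⟨φ, hφ⟩ := NumberField.mem_multisetInfinitePlace.1 hv
    exact arch_K v φ (fun x => by rw [← hφ]; rfl) s hs
  · rw [Multiset.prod_map_mul, Multiset.map_const', Multiset.prod_replicate]
    exact le_refl _

theorem t_GEL : S_GEL := by
  intro K _ _ n
  refine ⟨totalWeight K * Real.log 4, by positivity, fun s hs => ?_⟩
  have hs0 : s.prod ≠ 0 := fun h => hs 0 (Multiset.prod_eq_zero_iff.1 h) rfl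
  have hpos : ∀ P : MvPolynomial (Fin n) K, 0 < mulHeight (fun s : P.support => P.coeff s) :=
    fun P => mulHeight_pos _
  have h1 : (s.map hp).sum =
      Real.log ((s.map fun P => mulHeight (fun s : P.support => P.coeff s)).prod) := by
    rw [Real.log_multiset_prod, Multiset.map_map]
    · rfl
    · intro a ha
      obtain ⟨P, _, rfl⟩ := Multiset.mem_map.1 ha
      exact (hpos P).ne'
  have h2 : (s.map fun P => mulHeight (fun s : P.support => P.coeff s)).prod ≤
      (4 ^ (∑ i, s.prod.degreeOf i)) ^ totalWeight K *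
        mulHeight (fun t : s.prod.support => s.prod.coeff t) := by
    have h3 : (s.map fun P => mulHeight (fun s : P.support => P.coeff s)) =
        s.map fun P => hA P * hF P :=
      Multiset.map_congr rfl fun P hP => mulHeight_hA (hs P hP)
    rw [h3, Multiset.prod_map_mul, mulHeight_hA hs0, hF_prod s hs, ← mul_assoc]
    refine mul_le_mul_of_nonneg_right (hA_prod s hs) ?_
    exact finprod_nonneg fun v => (gn_pos v.val hs0).le
  have h4 : 0 < (s.map fun P => mulHeight (fun s : P.support => P.coeff s)).prod := by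
    refine Multiset.prod_pos fun a ha => ?_
    obtain ⟨P, _, rfl⟩ := Multiset.mem_map.1 ha
    exact hpos P
  rw [h1]
  refine (Real.log_le_log h4 h2).trans ?_
  rw [Real.log_mul (by positivity) (hpos _).ne', Real.log_pow, Real.log_pow]
  have h5 : hp s.prod = Real.log (mulHeight (fun t : s.prod.support => s.prod.coeff t)) := rfl
  rw [h5]
  push_cast
  apply le_of_eq
  ring

end final

end Pool.Agent.J4H75.GC
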