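import Pool.Agent.J4H75.GC.Val
import Pool.Agent.TH954.V.Tot

/-!
# Project GC: part PF (the inequality from the product formula)
-/

set_option autoImplicit false
set_option linter.unusedSectionVars false

open MvPolynomial Height Filter NumberField

namespace Pool.Agent.J4H75.GC

open Pool.Agent.J4H27.GC Pool.Agent.TH954.V

section places

variable {K : Type} [Field K] [NumberField K]

/-- `log max 1 |z|` -/
noncomputable def lp (z : K) (v : AbsoluteValue K ℝ) : ℝ := Real.log (max 1 (v z))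

lemma sup2 (z : K) (v : AbsoluteValue K ℝ) : (⨆ c, v ((![1, z, 0] : Fin 3 → K) c)) = max 1 (v z) := by
  apply le_antisymm
  · refine ciSup_le (fun c => ?_)
    fin_cases c
    · simp
    · simp
    · simp
  · refine max_le ?_ ?_
    · have := le_sup v (![1, z, 0] : Fin 3 → K) 0
      simpa using this
    · exact le_sup v (![1, z, 0] : Fin 3 → K) 1

lemma sup3 (z z' : K) (v : AbsoluteValue K ℝ) :
    (⨆ c, v ((![1, z, z'] : Fin 3 → K) c)) = max (max 1 (v z)) (max 1 (v z')) := by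
  apply le_antisymm
  · refine ciSup_le (fun c => ?_)
    fin_cases c
    · simp
    · simp
    · simp
  · refine max_le (max_le ?_ ?_) (max_le ?_ ?_)
    · have := le_sup v (![1, z, z'] : Fin 3 → K) 0
      simpa using this
    · exact le_sup v (![1, z, z'] : Fin 3 → K) 1
    · have := le_sup v (![1, z, z'] : Fin 3 → K) 0
      simpa using this
    · exact le_sup v (![1, z, z'] : Fin 3 → K) 2

lemma ne1 (z z' : K) : (![1, z, z'] : Fin 3 → K) ≠ 0 := fun h => by
  have := congrFun h 0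
  simp at this

lemma FS_lp (z : K) : FS (lp z) := by
  have h := FS_sup (ne1 z (0 : K))
  have e : (fun v : AbsoluteValue K ℝ => Real.log (⨆ c, v ((![1, z, 0] : Fin 3 → K) c))) = lp z := by
    funext v
    rw [sup2]
    rfl
  rwa [e] at h

lemma tot_lp (z : K) : tot (lp z) = logHeight₁ z := by
  have hpos : ∀ v : AbsoluteValue K ℝ, 0 < max 1 (v z) := fun v => lt_max_of_lt_left one_pos
  rw [logHeight₁_eq_log_mulHeight₁, NumberField.mulHeight₁_eq, Real.log_mul, Real.log_prod,
    Real.log_finprod (fun v => lt_max_of_lt_right one_pos)]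
  · unfold tot lp
    congr 1
    · refine Finset.sum_congr rfl (fun w _ => ?_)
      rw [Real.log_pow, max_comm]
      rfl
    · refine finsum_congr (fun v => ?_)
      rw [max_comm]
      rfl
  · exact fun w _ => (pow_pos (lt_max_of_lt_right one_pos) _).ne'
  · exact (Finset.prod_pos (fun w _ => pow_pos (lt_max_of_lt_right one_pos) _)).ne'
  · exact (finprod_induction (fun x : ℝ => 0 < x) one_pos
      (fun _ _ h1 h2 => mul_pos h1 h2) (fun v => lt_max_of_lt_right one_pos)).ne'

/-- `log min (max 1 |z|) (max 1 |z'|)` -/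
noncomputable def lm (z z' : K) (v : AbsoluteValue K ℝ) : ℝ :=
  Real.log (min (max 1 (v z)) (max 1 (v z')))

lemma lm_eq (z z' : K) (v : AbsoluteValue K ℝ) : lm z z' v =
    lp z v + (lp z' v + (-1) * Real.log (⨆ c, v ((![1, z, z'] : Fin 3 → K) c))) := by
  unfold lm lp
  rw [sup3]
  have h1 : 0 < max 1 (v z) := lt_max_of_lt_left one_pos
  have h2 : 0 < max 1 (v z') := lt_max_of_lt_left one_pos
  have h3 := min_mul_max (max 1 (v z)) (max 1 (v z'))
  have h4 := congrArg Real.log h3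
  rw [Real.log_mul (lt_min h1 h2).ne' (lt_max_of_lt_left h1).ne',
    Real.log_mul h1.ne' h2.ne'] at h4
  linarith

lemma FS_lm (z z' : K) : FS (lm z z') := by
  have e : lm z z' = fun v => lp z v + (lp z' v +
      (-1) * Real.log (⨆ c, v ((![1, z, z'] : Fin 3 → K) c))) := by
    funext v
    exact lm_eq z z' v
  rw [e]
  exact FS_add (FS_lp z) (FS_add (FS_lp z') (FS_mul (FS_sup (ne1 z z')) (-1)))

lemma tot_lm (z z' : K) : tot (lm z z') =
    logHeight₁ z + logHeight₁ z' - logHeight ![1, z, z'] := by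
  have e : lm z z' = fun v => lp z v + (lp z' v +
      (-1) * Real.log (⨆ c, v ((![1, z, z'] : Fin 3 → K) c))) := by
    funext v
    exact lm_eq z z' v
  rw [e, tot_add (FS_lp z) (FS_add (FS_lp z') (FS_mul (FS_sup (ne1 z z')) (-1))),
    tot_add (FS_lp z') (FS_mul (FS_sup (ne1 z z')) (-1)), tot_mul (FS_sup (ne1 z z')),
    tot_sup (ne1 z z'), tot_lp, tot_lp]
  ring

/-- comparison with a constant at the infinite places -/
lemma tot_le' {g h : AbsoluteValue K ℝ → ℝ} (hg : FS g) (hh : FS h) {c : ℝ}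
    (hi : ∀ w : InfinitePlace K, g (ai w) ≤ c + h (ai w))
    (hf : ∀ v : FinitePlace K, g (av v) ≤ h (av v)) :
    tot g ≤ (Module.finrank ℚ K : ℝ) * c + tot h := by
  classical
  have h1 : (Module.finrank ℚ K : ℝ) * c = ∑ w : InfinitePlace K, (w.mult : ℝ) * c := by
    rw [← Finset.sum_mul, ← InfinitePlace.sum_mult_eq (K := K)]
    push_cast
    rfl
  unfold tot
  rw [h1, ← add_assoc, ← Finset.sum_add_distrib]
  refine add_le_add (Finset.sum_le_sum (fun w _ => ?_)) ?_
  · rw [← mul_add]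
    exact mul_le_mul_of_nonneg_left (hi w) (Nat.cast_nonneg _)
  · rw [finsum_eq (hg.toFinset ∪ hh.toFinset) (fun v hv => Finset.mem_union_left _
      ((Set.Finite.mem_toFinset hg).mpr hv)),
      finsum_eq (hg.toFinset ∪ hh.toFinset) (fun v hv => Finset.mem_union_right _
      ((Set.Finite.mem_toFinset hh).mpr hv))]
    exact Finset.sum_le_sum (fun v _ => hf v)

end places

section series

variable {K : Type} [Field K] [NumberField K] {m : ℕ}

lemma ser_aux (s : Ix m) (F : PowerSeries K) (u ξ c α β : K)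
    (h0 : (PowerSeries.C u * F) ^ 2 = (PowerSeries.C ξ + PowerSeries.C c * PowerSeries.X) ^ 3 +
      PowerSeries.C α * (PowerSeries.C ξ + PowerSeries.C c * PowerSeries.X) + PowerSeries.C β) :
    (MvPowerSeries.C u * F.toMvPowerSeries s) ^ 2 =
      (MvPowerSeries.C ξ + MvPowerSeries.C c * MvPowerSeries.X s) ^ 3 +
      MvPowerSeries.C α * (MvPowerSeries.C ξ + MvPowerSeries.C c * MvPowerSeries.X s) +
        MvPowerSeries.C β := by
  have h1 := congrArg (PowerSeries.toMvPowerSeries (σ := Ix m) s) h0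
  simp only [map_pow, map_mul, map_add, PowerSeries.toMvPowerSeries_C,
    PowerSeries.toMvPowerSeries_X] at h1
  exact h1

lemma onE_ser (a b : Fin 2 → 𝓞 K) (C₁ : ℝ) (x h : Ix m → K) (E : Ix m → PowerSeries K)
    (hE : ∀ s, IsSer (a s.2) (b s.2) C₁ (x s) (h s) (E s)) :
    OnE a b (gR K m) (xR x h) (hR h E) := by
  intro s
  obtain ⟨-, h0, -, -⟩ := hE s
  exact ser_aux s (E s) (h s) (x s) (4 * h s ^ 2) _ _ h0

lemma cc_xR (x h : Ix m → K) (t : Ix m) : MvPowerSeries.constantCoeff (xR x h t) = x t := by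
  unfold xR
  rw [map_add, map_mul, MvPowerSeries.constantCoeff_C, MvPowerSeries.constantCoeff_X]
  ring

lemma cc_hR (h : Ix m → K) (E : Ix m → PowerSeries K)
    (hE : ∀ s, PowerSeries.constantCoeff (E s) = 1) (t : Ix m) :
    MvPowerSeries.constantCoeff (hR h E t) = h t := by
  unfold hR
  rw [map_mul, MvPowerSeries.constantCoeff_C, PowerSeries.toMvPowerSeries_apply,
    MvPowerSeries.constantCoeff_rename]
  have := hE t
  change h t * PowerSeries.constantCoeff (E t) = h t
  rw [this, mul_one]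

end series

section main

variable {K : Type} [Field K] [NumberField K] {m : ℕ}

lemma log_Bd (D T : Fin m → ℕ) (d e : ℕ) (x : Ix m → K) (s : Ix m →₀ ℕ)
    (v : AbsoluteValue K ℝ) : Real.log (Bd D T d e (fun t => max 1 (v (x t))) s) =
      ∑ j : Fin 2, ((e : ℝ) + 2 * m * d + 2 * m) * lp (x (none, j)) v +
      (∑ i : Fin m, ∑ j : Fin 2, (2 * (D i : ℝ) + 2) * lp (x (some i, j)) v +
      (∑ t, (2 * (s t : ℝ)) * lp (x t) v +
      ∑ i : Fin m, (-(T i : ℝ)) * lm (x (some i, 0)) (x (some i, 1)) v)) := by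
  have hM : ∀ t, (0 : ℝ) < max 1 (v (x t)) := fun t => lt_max_of_lt_left one_pos
  have h1 : (∏ j : Fin 2, (max 1 (v (x (none, j)))) ^ (e + 2 * m * d + 2 * m)) ≠ 0 :=
    (Finset.prod_pos (fun j _ => pow_pos (hM _) _)).ne'
  have h2 : (∏ i : Fin m, ∏ j : Fin 2, (max 1 (v (x (some i, j)))) ^ (2 * D i + 2)) ≠ 0 :=
    (Finset.prod_pos (fun i _ => Finset.prod_pos (fun j _ => pow_pos (hM _) _))).ne'
  have h3 : (∏ t, (max 1 (v (x t))) ^ (2 * s t)) ≠ 0 :=
    (Finset.prod_pos (fun j _ => pow_pos (hM _) _)).ne'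
  have h4 : ∀ i : Fin m, (min (max 1 (v (x (some i, 0)))) (max 1 (v (x (some i, 1)))) ^ T i)⁻¹ ≠
      0 := fun i => (inv_pos.2 (pow_pos (lt_min (hM _) (hM _)) _)).ne'
  have h4' : (∏ i : Fin m, (min (max 1 (v (x (some i, 0)))) (max 1 (v (x (some i, 1)))) ^ T i)⁻¹) ≠
      0 := Finset.prod_ne_zero_iff.2 (fun i _ => h4 i)
  unfold Bd
  rw [Real.log_mul (mul_ne_zero (mul_ne_zero h1 h2) h3) h4', Real.log_mul (mul_ne_zero h1 h2) h3,
    Real.log_mul h1 h2, Real.log_prod (fun j _ => (pow_pos (hM _) _).ne'),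
    Real.log_prod (fun i _ => (Finset.prod_pos (fun j _ => pow_pos (hM _) _)).ne'),
    Real.log_prod (fun j _ => (pow_pos (hM _) _).ne'), Real.log_prod (fun i _ => h4 i)]
  rw [add_assoc, add_assoc]
  congr 1
  · refine Finset.sum_congr rfl (fun j _ => ?_)
    rw [Real.log_pow]
    push_cast
    rfl
  congr 1
  · refine Finset.sum_congr rfl (fun i _ => ?_)
    rw [Real.log_prod (fun j _ => (pow_pos (hM _) _).ne')]
    refine Finset.sum_congr rfl (fun j _ => ?_)
    rw [Real.log_pow]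
    push_cast
    rfl
  congr 1
  · refine Finset.sum_congr rfl (fun t _ => ?_)
    rw [Real.log_pow]
    push_cast
    rfl
  · refine Finset.sum_congr rfl (fun i _ => ?_)
    rw [Real.log_inv, Real.log_pow]
    unfold lm
    ring

theorem t_PF (h1 : S_LOC) (h2 : S_ROW) : S_PF := by
  classical
  intro K _ _ a b m C₁ hC₁
  obtain ⟨C', hC', hloc⟩ := h1 K a b m C₁ hC₁
  have hlogC : 0 ≤ Real.log C' := Real.log_nonneg hC'
  have hn0 : (0 : ℝ) ≤ (Module.finrank ℚ K : ℝ) := Nat.cast_nonneg _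
  refine ⟨(Module.finrank ℚ K : ℝ) * (Real.log C' + 1) + 1, ?_, ?_⟩
  · have : 0 ≤ (Module.finrank ℚ K : ℝ) * (Real.log C' + 1) := mul_nonneg hn0 (by linarith)
    linarith
  intro D k T d e hd hD hDk hed F Λ hΛ hdeg hlen hGG x h E V w s hcurve hser hw hV hc0 hlow
  have hrow := h2 K a b m D k F x h (xR x h) (hR h E) V w s (onE_ser a b C₁ x h E hser)
    (cc_xR x h) (cc_hR h E (fun s => (hser s).1)) hw hV hlow
  have hL := hloc D k T d e hd hD hDk hed F Λ hdeg hlen hGG x h E hcurve hser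
  set c : K := MvPowerSeries.coeff s (Val a b D k (gR K m) (xR x h) (hR h E) (fun _ _ => true) F)
    with hc
  set r : AbsoluteValue K ℝ → Fin m → Fin 2 → Bool := fun v i j => decide (v (V i j) ≤ 1) with hr
  have hfac : ∀ (v : AbsoluteValue K ℝ) (i : Fin m) (j : Fin 2),
      v (if r v i j then (1 : K) else V i j ^ D i) ≠ 0 ∧
      Real.log (v (if r v i j then (1 : K) else V i j ^ D i)) = (D i : ℝ) * lp (V i j) v := by
    intro v i j
    unfold lp
    by_cases hle : v (V i j) ≤ 1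
    · have hr1 : r v i j = true := by
        rw [hr]
        simpa using hle
      rw [hr1, if_pos rfl, map_one, max_eq_left hle, Real.log_one, mul_zero]
      exact ⟨one_ne_zero, rfl⟩
    · have hr1 : r v i j = false := by
        rw [hr]
        simpa using hle
      push Not at hle
      rw [hr1, if_neg Bool.false_ne_true, map_pow, max_eq_right hle.le, Real.log_pow]
      exact ⟨pow_ne_zero _ (by linarith), rfl⟩
  have hval : ∀ v : AbsoluteValue K ℝ,
      v (MvPowerSeries.coeff s (Val a b D k (gR K m) (xR x h) (hR h E) (r v) F)) ≠ 0 ∧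
      Real.log (v (MvPowerSeries.coeff s (Val a b D k (gR K m) (xR x h) (hR h E) (r v) F))) =
        Real.log (v c) + ∑ i, ∑ j, (D i : ℝ) * lp (V i j) v := by
    intro v
    have hvc : v c ≠ 0 := (v.pos hc0).ne'
    have hp : ∀ i : Fin m, (∏ j, v (if r v i j then (1 : K) else V i j ^ D i)) ≠ 0 := fun i =>
      Finset.prod_ne_zero_iff.2 (fun j _ => (hfac v i j).1)
    have hpp : (∏ i, ∏ j, v (if r v i j then (1 : K) else V i j ^ D i)) ≠ 0 :=
      Finset.prod_ne_zero_iff.2 (fun i _ => hp i)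
    rw [hrow (r v), map_mul, map_prod]
    simp_rw [map_prod]
    refine ⟨mul_ne_zero hpp hvc, ?_⟩
    rw [Real.log_mul hpp hvc, Real.log_prod (fun i _ => hp i), add_comm]
    congr 1
    refine Finset.sum_congr rfl (fun i _ => ?_)
    rw [Real.log_prod (fun j _ => (hfac v i j).1)]
    exact Finset.sum_congr rfl (fun j _ => (hfac v i j).2)
  -- the two functions on the places
  set B : AbsoluteValue K ℝ → ℝ := fun v =>
      ∑ j : Fin 2, ((e : ℝ) + 2 * m * d + 2 * m) * lp (x (none, j)) v +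
      (∑ i : Fin m, ∑ j : Fin 2, (2 * (D i : ℝ) + 2) * lp (x (some i, j)) v +
      (∑ t, (2 * (s t : ℝ)) * lp (x t) v +
      ∑ i : Fin m, (-(T i : ℝ)) * lm (x (some i, 0)) (x (some i, 1)) v)) with hB
  set g : AbsoluteValue K ℝ → ℝ := fun v =>
      Real.log (v c) + ∑ i, ∑ j, (D i : ℝ) * lp (V i j) v with hg
  have hBpos : ∀ v : AbsoluteValue K ℝ, 0 < Bd D T d e (fun t => max 1 (v (x t))) s := by
    intro v
    have hM : ∀ t, (0 : ℝ) < max 1 (v (x t)) := fun t => lt_max_of_lt_left one_pos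
    unfold Bd
    refine mul_pos (mul_pos (mul_pos ?_ ?_) ?_) ?_
    · exact Finset.prod_pos (fun j _ => pow_pos (hM _) _)
    · exact Finset.prod_pos (fun i _ => Finset.prod_pos (fun j _ => pow_pos (hM _) _))
    · exact Finset.prod_pos (fun j _ => pow_pos (hM _) _)
    · exact Finset.prod_pos (fun i _ => inv_pos.2 (pow_pos (lt_min (hM _) (hM _)) _))
  have F1 : FS (fun v : AbsoluteValue K ℝ => ∑ j : Fin 2,
      ((e : ℝ) + 2 * m * d + 2 * m) * lp (x (none, j)) v) :=
    FS_sum _ (fun j _ => FS_mul (FS_lp _) _)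
  have F2i : ∀ i : Fin m, FS (fun v : AbsoluteValue K ℝ => ∑ j : Fin 2,
      (2 * (D i : ℝ) + 2) * lp (x (some i, j)) v) := fun i =>
    FS_sum _ (fun j _ => FS_mul (FS_lp _) _)
  have F2 : FS (fun v : AbsoluteValue K ℝ => ∑ i : Fin m, ∑ j : Fin 2,
      (2 * (D i : ℝ) + 2) * lp (x (some i, j)) v) := FS_sum _ (fun i _ => F2i i)
  have F3 : FS (fun v : AbsoluteValue K ℝ => ∑ t, (2 * (s t : ℝ)) * lp (x t) v) :=
    FS_sum _ (fun t _ => FS_mul (FS_lp _) _)
  have F4 : FS (fun v : AbsoluteValue K ℝ => ∑ i : Fin m,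
      (-(T i : ℝ)) * lm (x (some i, 0)) (x (some i, 1)) v) :=
    FS_sum _ (fun i _ => FS_mul (FS_lm _ _) _)
  have F34 := FS_add F3 F4
  have F234 := FS_add F2 F34
  have FB : FS B := FS_add F1 F234
  have G2i : ∀ i : Fin m, FS (fun v : AbsoluteValue K ℝ => ∑ j : Fin 2,
      (D i : ℝ) * lp (V i j) v) := fun i => FS_sum _ (fun j _ => FS_mul (FS_lp _) _)
  have G2 : FS (fun v : AbsoluteValue K ℝ => ∑ i : Fin m, ∑ j : Fin 2,
      (D i : ℝ) * lp (V i j) v) := FS_sum _ (fun i _ => G2i i)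
  have Fg : FS g := FS_add (FS_log hc0) G2
  have tg : tot g = ∑ i, ∑ j, (D i : ℝ) * logHeight₁ (V i j) := by
    rw [hg, tot_add (FS_log hc0) G2, tot_log hc0, zero_add, tot_sum _ (fun i _ => G2i i)]
    refine Finset.sum_congr rfl (fun i _ => ?_)
    rw [tot_sum _ (fun j _ => FS_mul (FS_lp _) _)]
    refine Finset.sum_congr rfl (fun j _ => ?_)
    rw [tot_mul (FS_lp _), tot_lp]
  have tB : tot B = ∑ j : Fin 2, ((e : ℝ) + 2 * m * d + 2 * m) * logHeight₁ (x (none, j)) +
      (∑ i : Fin m, ∑ j : Fin 2, (2 * (D i : ℝ) + 2) * logHeight₁ (x (some i, j)) +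
      (∑ t, (2 * (s t : ℝ)) * logHeight₁ (x t) +
      ∑ i : Fin m, (-(T i : ℝ)) * (logHeight₁ (x (some i, 0)) + logHeight₁ (x (some i, 1)) -
          logHeight ![1, x (some i, 0), x (some i, 1)]))) := by
    rw [hB, tot_add F1 F234, tot_add F2 F34, tot_add F3 F4,
      tot_sum _ (fun j _ => FS_mul (FS_lp _) _), tot_sum _ (fun i _ => F2i i),
      tot_sum _ (fun j _ => FS_mul (FS_lp _) _), tot_sum _ (fun i _ => FS_mul (FS_lm _ _) _)]
    congr 1
    · exact Finset.sum_congr rfl (fun j _ => by rw [tot_mul (FS_lp _), tot_lp])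
    congr 1
    · refine Finset.sum_congr rfl (fun i _ => ?_)
      rw [tot_sum _ (fun j _ => FS_mul (FS_lp _) _)]
      exact Finset.sum_congr rfl (fun j _ => by rw [tot_mul (FS_lp _), tot_lp])
    congr 1
    · exact Finset.sum_congr rfl (fun j _ => by rw [tot_mul (FS_lp _), tot_lp])
    · exact Finset.sum_congr rfl (fun j _ => by rw [tot_mul (FS_lm _ _), tot_lm])
  have hC0 : (0 : ℝ) < C' := by linarith
  have hΛ0 : (0 : ℝ) < Λ := by linarith
  have hmain := tot_le' (g := g) (h := B) Fg FB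
    (c := (d + ∑ t, (s t : ℝ)) * Real.log C' + Real.log Λ)
    (by
      intro w'
      have e1 := (hL (r (ai w')) s).2 w'
      have e2 := Real.log_le_log (lt_of_le_of_ne ((ai w').nonneg _) (hval (ai w')).1.symm) e1
      rw [(hval (ai w')).2] at e2
      refine e2.trans (le_of_eq ?_)
      have hb' : 0 < Bd D T d e (fun t => max 1 (w' (x t))) s := hBpos (ai w')
      rw [mul_assoc, Real.log_mul (pow_pos hC0 _).ne' (mul_pos hΛ0 hb').ne',
        Real.log_mul hΛ0.ne' hb'.ne', Real.log_pow]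
      have e3 := log_Bd D T d e x s (ai w')
      have e4 : Real.log (Bd D T d e (fun t => max 1 (w' (x t))) s) = B (ai w') := e3
      rw [e4]
      push_cast
      ring)
    (by
      intro v'
      have e1 := (hL (r (av v')) s).1 v'
      have e2 := Real.log_le_log (lt_of_le_of_ne ((av v').nonneg _) (hval (av v')).1.symm) e1
      rw [(hval (av v')).2] at e2
      refine e2.trans (le_of_eq ?_)
      exact log_Bd D T d e x s (av v'))
  rw [tg, tB] at hmain
  have hS0 : 0 ≤ (d : ℝ) + ∑ t, (s t : ℝ) :=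
    add_nonneg (Nat.cast_nonneg _) (Finset.sum_nonneg (fun t _ => Nat.cast_nonneg _))
  have hlΛ : 0 ≤ Real.log Λ := Real.log_nonneg hΛ
  have hconst : (Module.finrank ℚ K : ℝ) * ((d + ∑ t, (s t : ℝ)) * Real.log C' + Real.log Λ) ≤
      ((Module.finrank ℚ K : ℝ) * (Real.log C' + 1) + 1) *
        (d + ∑ t, (s t : ℝ) + Real.log Λ) := by
    have p1 : 0 ≤ (Module.finrank ℚ K : ℝ) * Real.log C' * Real.log Λ := by positivity
    have p2 : 0 ≤ (Module.finrank ℚ K : ℝ) * (d + ∑ t, (s t : ℝ)) := mul_nonneg hn0 hS0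
    nlinarith
  have r1 : ∑ j : Fin 2, ((e : ℝ) + 2 * m * d + 2 * m) * logHeight₁ (x (none, j)) =
      (e + 2 * m * d + 2 * m) * ∑ j, logHeight₁ (x (none, j)) := by
    rw [Finset.mul_sum]
  have r2 : ∑ t, (2 * (s t : ℝ)) * logHeight₁ (x t) = 2 * ∑ t, (s t : ℝ) * logHeight₁ (x t) := by
    rw [Finset.mul_sum]
    exact Finset.sum_congr rfl (fun t _ => by ring)
  have r3 : ∑ i : Fin m, (-(T i : ℝ)) * (logHeight₁ (x (some i, 0)) + logHeight₁ (x (some i, 1)) -
          logHeight ![1, x (some i, 0), x (some i, 1)]) =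
      -∑ i, (T i : ℝ) * (logHeight₁ (x (some i, 0)) + logHeight₁ (x (some i, 1)) -
          logHeight ![1, x (some i, 0), x (some i, 1)]) := by
    rw [← Finset.sum_neg_distrib]
    exact Finset.sum_congr rfl (fun i _ => by ring)
  rw [r1, r2, r3] at hmain
  linarith

end main

end Pool.Agent.J4H75.GC
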