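import Pool.Agent.J4H27.GC.Defs2

/-!
# Norms with respect to several square roots

NORM of project GC (helper27), written by helper75.
-/

set_option autoImplicit false

open MvPolynomial Height Filter NumberField

namespace Pool.Agent.J4H75.GC

open Pool.Agent.J4H27.GC

/-! ## The length -/

section len

variable {σ K : Type} [Field K] [NumberField K]

lemma house_zero' : house (0 : K) = 0 := by simp [house]

lemma len_eq (P : MvPolynomial σ (𝓞 K)) (T : Finset (σ →₀ ℕ)) (h : P.support ⊆ T) :
    len P = ∑ s ∈ T, house ((P.coeff s : 𝓞 K) : K) := by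
  refine Finset.sum_subset h fun s _ hs => ?_
  rw [notMem_support_iff.1 hs]
  simp [house]

lemma len_nonneg (P : MvPolynomial σ (𝓞 K)) : 0 ≤ len P :=
  Finset.sum_nonneg fun _ _ => house_nonneg _

lemma len_zero : len (0 : MvPolynomial σ (𝓞 K)) = 0 := by simp [len]

lemma len_add_le (P Q : MvPolynomial σ (𝓞 K)) : len (P + Q) ≤ len P + len Q := by
  classical
  rw [len_eq (P + Q) (P.support ∪ Q.support) support_add,
    len_eq P (P.support ∪ Q.support) Finset.subset_union_left,
    len_eq Q (P.support ∪ Q.support) Finset.subset_union_right, ← Finset.sum_add_distrib]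
  refine Finset.sum_le_sum fun s _ => ?_
  rw [coeff_add]
  push_cast
  exact house_add_le _ _

lemma len_sum_le {ι : Type*} (s : Finset ι) (P : ι → MvPolynomial σ (𝓞 K)) :
    len (∑ i ∈ s, P i) ≤ ∑ i ∈ s, len (P i) := by
  classical
  induction s using Finset.induction_on with
  | empty => simp [len_zero]
  | insert a s ha ih =>
    rw [Finset.sum_insert ha, Finset.sum_insert ha]
    exact (len_add_le _ _).trans (by linarith)

lemma len_monomial (s : σ →₀ ℕ) (c : 𝓞 K) : len (monomial s c) ≤ house (c : K) := by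
  classical
  rw [len_eq (monomial s c) {s} support_monomial_subset, Finset.sum_singleton, coeff_monomial,
    if_pos rfl]

lemma len_one : len (1 : MvPolynomial σ (𝓞 K)) ≤ 1 := by
  refine (len_monomial 0 1).trans ?_
  have h : house (((1 : ℤ) : K)) = |((1 : ℤ) : ℝ)| := by
    have := house_intCast (K := K) 1
    rw [this]
    push_cast
    rfl
  push_cast at h
  rw [show ((1 : 𝓞 K) : K) = 1 from map_one _, h]
  simp

lemma len_mul_le (P Q : MvPolynomial σ (𝓞 K)) : len (P * Q) ≤ len P * len Q := by
  classical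
  conv_lhs => rw [P.as_sum, Q.as_sum, Finset.sum_mul_sum]
  refine (len_sum_le _ _).trans ?_
  rw [len, len, Finset.sum_mul_sum]
  refine Finset.sum_le_sum fun s _ => (len_sum_le _ _).trans ?_
  refine Finset.sum_le_sum fun t _ => ?_
  rw [monomial_mul]
  refine (len_monomial _ _).trans ?_
  push_cast
  exact house_mul_le _ _

lemma len_neg (P : MvPolynomial σ (𝓞 K)) : len (-P) = len P := by
  unfold len
  rw [support_neg]
  refine Finset.sum_congr rfl fun s _ => ?_
  rw [coeff_neg]
  push_cast
  simp [house]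

lemma len_prod_le {ι : Type*} (s : Finset ι) (P : ι → MvPolynomial σ (𝓞 K)) :
    len (∏ i ∈ s, P i) ≤ ∏ i ∈ s, len (P i) := by
  classical
  induction s using Finset.induction_on with
  | empty => simpa using len_one
  | insert a s ha ih =>
    rw [Finset.prod_insert ha, Finset.prod_insert ha]
    exact (len_mul_le _ _).trans (mul_le_mul_of_nonneg_left ih (len_nonneg _))

end len

/-! ## Multilinear polynomials in the square roots -/

section tw

variable {J A : Type} [Fintype J] [DecidableEq J] [CommRing A]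

/-- evaluation -/
noncomputable def ev {S : Type} [CommRing S] (g : A →+* S) (θ : J → S) (c : Finset J → A) : S :=
  ∑ T : Finset J, g (c T) * ∏ j ∈ T, θ j

/-- product -/
noncomputable def tm (f : J → A) (c d : Finset J → A) (T : Finset J) : A :=
  ∑ U : Finset J, c U * d (symmDiff U T) * ∏ j ∈ U \ T, f j

/-- conjugation -/
def cj (j : J) (c : Finset J → A) (T : Finset J) : A := if j ∈ T then -c T else c T

/-- change of signs -/
def fl {S : Type} [CommRing S] (U : Finset J) (θ : J → S) : J → S :=
  fun i => if i ∈ U then -θ i else θ i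

lemma prod_all {M : Type} [CommMonoid M] (s : Finset J) (f : J → M) :
    ∏ j ∈ s, f j = ∏ j, if j ∈ s then f j else 1 := by
  rw [Finset.prod_ite_mem, Finset.univ_inter]

lemma ev_tm {S : Type} [CommRing S] (g : A →+* S) (θ : J → S) (f : J → A)
    (h : ∀ j, θ j ^ 2 = g (f j)) (c d : Finset J → A) :
    ev g θ (tm f c d) = ev g θ c * ev g θ d := by
  unfold ev tm
  rw [Finset.sum_mul_sum]
  simp only [map_sum, Finset.sum_mul]
  rw [Finset.sum_comm]
  refine Finset.sum_congr rfl fun U _ => ?_
  have hinv : Function.Involutive fun T : Finset J => symmDiff U T := fun T =>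
    symmDiff_symmDiff_cancel_left U T
  refine Fintype.sum_equiv hinv.toPerm _ _ fun T => ?_
  simp only [Function.Involutive.coe_toPerm, map_mul, map_prod]
  have h1 : (∏ j ∈ U, θ j) * ∏ j ∈ symmDiff U T, θ j = (∏ j ∈ U \ T, g (f j)) * ∏ j ∈ T, θ j := by
    rw [prod_all U, prod_all (symmDiff U T), prod_all (U \ T), prod_all T, ← Finset.prod_mul_distrib,
      ← Finset.prod_mul_distrib]
    refine Finset.prod_congr rfl fun j _ => ?_
    by_cases h1 : j ∈ U <;> by_cases h2 : j ∈ T <;>
      simp [Finset.mem_symmDiff, h1, h2, ← h, sq]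
  calc _ = g (c U) * g (d (symmDiff U T)) * ((∏ j ∈ U \ T, g (f j)) * ∏ j ∈ T, θ j) := by ring
    _ = _ := by rw [← h1]; ring

lemma tm_comm (f : J → A) (c d : Finset J → A) : tm f c d = tm f d c := by
  funext T
  unfold tm
  have hinv : Function.Involutive fun U : Finset J => symmDiff U T := fun U =>
    symmDiff_symmDiff_cancel_right T U
  refine Fintype.sum_equiv hinv.toPerm _ _ fun U => ?_
  simp only [Function.Involutive.coe_toPerm]
  have h1 : symmDiff U T \ T = U \ T := by
    ext j
    simp only [Finset.mem_sdiff, Finset.mem_symmDiff]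
    tauto
  rw [symmDiff_symmDiff_cancel_right, h1]
  ring

lemma cj_tm (f : J → A) (j : J) (c d : Finset J → A) :
    cj j (tm f c d) = tm f (cj j c) (cj j d) := by
  funext T
  unfold cj tm
  split_ifs with hT
  · rw [← Finset.sum_neg_distrib]
    refine Finset.sum_congr rfl fun U _ => ?_
    by_cases hU : j ∈ U
    · simp [Finset.mem_symmDiff, hU, hT]
    · simp [Finset.mem_symmDiff, hU, hT]
  · refine Finset.sum_congr rfl fun U _ => ?_
    by_cases hU : j ∈ U
    · simp [Finset.mem_symmDiff, hU, hT]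
    · simp [Finset.mem_symmDiff, hU, hT]

omit [Fintype J] in
lemma cj_cj (j : J) (c : Finset J → A) : cj j (cj j c) = c := by
  funext T
  unfold cj
  split_ifs <;> simp

omit [Fintype J] in
lemma cj_swap (i j : J) (c : Finset J → A) : cj i (cj j c) = cj j (cj i c) := by
  funext T
  unfold cj
  split_ifs <;> simp

omit [Fintype J] in
lemma prod_fl {S : Type} [CommRing S] (j : J) (θ : J → S) (T : Finset J) :
    ∏ i ∈ T, fl {j} θ i = if j ∈ T then -∏ i ∈ T, θ i else ∏ i ∈ T, θ i := by
  split_ifs with h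
  · rw [← Finset.mul_prod_erase T _ h, ← Finset.mul_prod_erase T θ h, ← neg_mul]
    congr 1
    · simp [fl]
    · refine Finset.prod_congr rfl fun i hi => ?_
      simp [fl, Finset.ne_of_mem_erase hi]
  · refine Finset.prod_congr rfl fun i hi => ?_
    have : i ≠ j := fun h1 => h (h1 ▸ hi)
    simp [fl, this]

lemma ev_cj {S : Type} [CommRing S] (g : A →+* S) (θ : J → S) (j : J) (c : Finset J → A) :
    ev g θ (cj j c) = ev g (fl {j} θ) c := by
  unfold ev
  refine Finset.sum_congr rfl fun T _ => ?_
  rw [prod_fl]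
  unfold cj
  split_ifs <;> simp

omit [Fintype J] in
lemma fl_fl {S : Type} [CommRing S] (a : J) (U : Finset J) (ha : a ∉ U) (θ : J → S) :
    fl U (fl {a} θ) = fl (insert a U) θ := by
  funext i
  unfold fl
  by_cases h1 : i = a
  · subst h1
    simp [ha]
  · simp [h1]

omit [Fintype J] [DecidableEq J] in
lemma fl_sq [DecidableEq J] {S : Type} [CommRing S] (U : Finset J) (θ : J → S) (j : J) :
    fl U θ j ^ 2 = θ j ^ 2 := by
  unfold fl
  split_ifs <;> simp

end tw

section main

variable {σ J K : Type} [Field K] [NumberField K] [Fintype σ] [DecidableEq σ] [Fintype J]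
  [DecidableEq J]

/-- bound of the degrees of the products of the `f j` -/
noncomputable def Fv (f : J → MvPolynomial σ (𝓞 K)) (v : σ) : ℕ := ∑ j, (f j).degreeOf v

/-- bound of the lengths -/
noncomputable def Mv (f : J → MvPolynomial σ (𝓞 K)) : ℝ :=
  2 ^ Fintype.card J * ∏ j, max 1 (len (f j))

omit [Fintype σ] [DecidableEq σ] [DecidableEq J] in
lemma one_le_Mv (f : J → MvPolynomial σ (𝓞 K)) : 1 ≤ Mv f := by
  unfold Mv
  have h1 : (1 : ℝ) ≤ 2 ^ Fintype.card J := one_le_pow₀ (by norm_num)
  have h2 : (1 : ℝ) ≤ ∏ j, max 1 (len (f j)) := by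
    calc (1 : ℝ) = ∏ _j : J, (1 : ℝ) := by simp
      _ ≤ _ := Finset.prod_le_prod (fun _ _ => zero_le_one) fun j _ => le_max_left _ _
  nlinarith

omit [DecidableEq σ] [Fintype σ] [NumberField K] in
lemma tm_degreeOf (f : J → MvPolynomial σ (𝓞 K)) (c d : Finset J → MvPolynomial σ (𝓞 K)) (v : σ)
    (D : ℕ) (hc : ∀ T, (c T).degreeOf v ≤ D) (hd : ∀ T, (d T).degreeOf v ≤ D) (T : Finset J) :
    (tm f c d T).degreeOf v ≤ 2 * D + Fv f v := by
  unfold tm
  refine (degreeOf_sum_le v _ _).trans (Finset.sup_le fun U _ => ?_)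
  refine (degreeOf_mul_le v _ _).trans ?_
  refine Nat.add_le_add ((degreeOf_mul_le v _ _).trans ?_) ?_
  · have := hc U
    have := hd (symmDiff U T)
    omega
  · refine (degreeOf_prod_le v _ _).trans ?_
    exact Finset.sum_le_sum_of_subset (Finset.subset_univ _)

omit [DecidableEq σ] [Fintype σ] in
lemma tm_len (f : J → MvPolynomial σ (𝓞 K)) (c d : Finset J → MvPolynomial σ (𝓞 K))
    (L : ℝ) (hL : 0 ≤ L) (hc : ∀ T, len (c T) ≤ L) (hd : ∀ T, len (d T) ≤ L) (T : Finset J) :
    len (tm f c d T) ≤ Mv f * L ^ 2 := by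
  unfold tm
  refine (len_sum_le _ _).trans ?_
  have h1 : ∀ U ∈ (Finset.univ : Finset (Finset J)),
      len (c U * d (symmDiff U T) * ∏ j ∈ U \ T, f j) ≤ (∏ j, max 1 (len (f j))) * L ^ 2 := by
    intro U _
    refine (len_mul_le _ _).trans ?_
    have h2 : len (c U * d (symmDiff U T)) ≤ L ^ 2 := by
      refine (len_mul_le _ _).trans ?_
      rw [sq]
      exact mul_le_mul (hc _) (hd _) (len_nonneg _) hL
    have h3 : len (∏ j ∈ U \ T, f j) ≤ ∏ j, max 1 (len (f j)) := by
      refine (len_prod_le _ _).trans ?_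
      rw [prod_all]
      refine Finset.prod_le_prod (fun j _ => ?_) fun j _ => ?_
      · split_ifs
        · exact len_nonneg _
        · exact zero_le_one
      · split_ifs
        · exact le_max_right _ _
        · exact le_max_left _ _
    rw [mul_comm]
    exact mul_le_mul h3 h2 (len_nonneg _) (by positivity)
  refine (Finset.sum_le_card_nsmul _ _ _ h1).trans ?_
  rw [Finset.card_univ, Fintype.card_finset, nsmul_eq_mul]
  unfold Mv
  push_cast
  exact le_of_eq (by ring)

omit [DecidableEq σ] [Fintype σ] in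
theorem norm_ind (f : J → MvPolynomial σ (𝓞 K)) (c : Finset J → MvPolynomial σ (𝓞 K))
    (δ : σ → ℕ) (L : ℝ) (hL : 1 ≤ L) (hδ : ∀ T v, (c T).degreeOf v ≤ δ v)
    (hc : ∀ T, len (c T) ≤ L) (W : Finset J) :
    ∃ d : Finset J → MvPolynomial σ (𝓞 K), (∀ i ∈ W, cj i d = d) ∧
      (∀ T v, (d T).degreeOf v + Fv f v ≤ 2 ^ W.card * (δ v + Fv f v)) ∧
      (∀ T, Mv f * len (d T) ≤ (Mv f * L) ^ 2 ^ W.card) ∧
      ∀ (S : Type) [CommRing S] (g : MvPolynomial σ (𝓞 K) →+* S) (θ : J → S),
        (∀ j, θ j ^ 2 = g (f j)) → ev g θ d = ∏ U ∈ W.powerset, ev g (fl U θ) c := by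
  have hM := one_le_Mv f
  induction W using Finset.induction_on with
  | empty =>
    refine ⟨c, fun i hi => absurd hi (Finset.notMem_empty i), fun T v => ?_, fun T => ?_,
      fun S _ g θ h => ?_⟩
    · have := hδ T v
      simp
      omega
    · have := mul_le_mul_of_nonneg_left (hc T) (zero_le_one.trans hM)
      simpa using this
    · have : fl ∅ θ = θ := by funext i; simp [fl]
      simp [this]
  | insert a W ha ih =>
    obtain ⟨d, h1, h2, h3, h4⟩ := ih
    refine ⟨tm f d (cj a d), ?_, ?_, ?_, ?_⟩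
    · intro i hi
      rw [cj_tm]
      by_cases hia : i = a
      · subst hia
        rw [cj_cj, tm_comm]
      · have hi' : i ∈ W := (Finset.mem_insert.1 hi).resolve_left hia
        rw [cj_swap, h1 i hi']
    · intro T v
      have h5 := tm_degreeOf f d (cj a d) v (2 ^ W.card * (δ v + Fv f v) - Fv f v)
        (fun T => by have := h2 T v; omega) (fun T => by
          have := h2 T v
          unfold cj
          split_ifs
          · rw [degreeOf_neg]; omega
          · omega) T
      have h6 := h2 T v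
      rw [Finset.card_insert_of_notMem ha, pow_succ]
      have h7 : 2 * (2 ^ W.card * (δ v + Fv f v) - Fv f v) + Fv f v + Fv f v =
          2 ^ W.card * 2 * (δ v + Fv f v) := by
        have h8 : Fv f v ≤ 2 ^ W.card * (δ v + Fv f v) := by omega
        obtain ⟨y, hy⟩ := Nat.exists_eq_add_of_le h8
        rw [mul_assoc, mul_comm 2 (δ v + Fv f v), ← mul_assoc, hy]
        omega
      omega
    · intro T
      have hM0 : 0 < Mv f := zero_lt_one.trans_le hM
      have h5 : ∀ T, len (d T) ≤ (Mv f * L) ^ 2 ^ W.card / Mv f := fun T => by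
        rw [le_div_iff₀ hM0, mul_comm]
        exact h3 T
      have h6 := tm_len f d (cj a d) ((Mv f * L) ^ 2 ^ W.card / Mv f) (by positivity) h5
        (fun T => by
          unfold cj
          split_ifs
          · rw [len_neg]; exact h5 T
          · exact h5 T) T
      refine (mul_le_mul_of_nonneg_left h6 hM0.le).trans ?_
      rw [Finset.card_insert_of_notMem ha]
      have h7 : (Mv f * L) ^ 2 ^ (W.card + 1) = ((Mv f * L) ^ 2 ^ W.card) ^ 2 := by
        rw [← pow_mul, ← pow_succ]
      rw [h7]
      generalize (Mv f * L) ^ 2 ^ W.card = Y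
      apply le_of_eq
      field_simp
    · intro S _ g θ h
      rw [ev_tm g θ f h, ev_cj, h4 S g θ h, h4 S g (fl {a} θ) (fun j => by rw [fl_sq]; exact h j),
        Finset.prod_powerset_insert ha]
      congr 1
      refine Finset.prod_congr rfl fun U hU => ?_
      rw [fl_fl a U (fun h5 => ha (Finset.mem_powerset.1 hU h5))]

/-- the exponent of a multilinear monomial -/
noncomputable def ex (T : Finset J) : J →₀ ℕ :=
  Finsupp.equivFunOnFinite.symm fun j => if j ∈ T then 1 else 0

lemma ex_apply (T : Finset J) (j : J) : ex T j = if j ∈ T then 1 else 0 := rfl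

lemma ex_inj : Function.Injective (ex : Finset J → J →₀ ℕ) := by
  intro T U h
  ext j
  have := DFunLike.congr_fun h j
  rw [ex_apply, ex_apply] at this
  by_cases h1 : j ∈ T <;> by_cases h2 : j ∈ U <;> simp_all

omit [DecidableEq σ] [Fintype σ] [NumberField K] in
lemma eval₂_multi {S : Type} [CommRing S] (g : MvPolynomial σ (𝓞 K) →+* S) (θ : J → S)
    (G : MvPolynomial J (MvPolynomial σ (𝓞 K))) (hG : ∀ s ∈ G.support, ∀ j, s j ≤ 1) :
    eval₂ g θ G = ev g θ fun T => G.coeff (ex T) := by
  rw [eval₂_eq']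
  unfold ev
  have h1 : ∀ T : Finset J, ∏ j ∈ T, θ j = ∏ j, θ j ^ ex T j := by
    intro T
    rw [prod_all]
    refine Finset.prod_congr rfl fun j _ => ?_
    rw [ex_apply]
    split_ifs <;> simp
  simp only [h1]
  rw [← Finset.sum_image (s := Finset.univ) (g := (ex : Finset J → J →₀ ℕ))
    (f := fun s => g (G.coeff s) * ∏ j, θ j ^ s j) fun T _ U _ h => ex_inj h]
  refine Finset.sum_subset ?_ ?_
  · intro s hs
    rw [Finset.mem_image]
    refine ⟨Finset.univ.filter fun j => s j = 1, Finset.mem_univ _, ?_⟩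
    ext j
    rw [ex_apply]
    have := hG s hs j
    simp only [Finset.mem_filter, Finset.mem_univ, true_and]
    split_ifs <;> omega
  · intro s _ hs
    rw [notMem_support_iff.1 hs, map_zero, zero_mul]

end main

theorem t_NORM : S_NORM := by
  intro K _ _ σ J _ _ _ _ f
  set n := Fintype.card J with hn
  set C : ℕ := ⌈Mv f⌉₊ + 2 ^ n * (1 + ∑ v, Fv f v) with hC
  have hCpos : 2 ^ n ≤ C := by
    rw [hC]
    have : 2 ^ n ≤ 2 ^ n * (1 + ∑ v, Fv f v) := Nat.le_mul_of_pos_right _ (by omega)
    omega
  have hM := one_le_Mv f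
  have hMC : Mv f ≤ C := by
    refine (Nat.le_ceil _).trans ?_
    rw [hC]
    push_cast
    have : (0 : ℝ) ≤ 2 ^ n * (1 + ∑ v, (Fv f v : ℝ)) := by positivity
    linarith
  refine ⟨C, lt_of_lt_of_le (by positivity) hCpos, fun G δ L hL hG hδ hc => ?_⟩
  obtain ⟨d, h1, h2, h3, h4⟩ := norm_ind f (fun T => G.coeff (ex T)) δ L hL
    (fun T v => hδ _ v) (fun T => hc _) Finset.univ
  have hd : ∀ T : Finset J, T ≠ ∅ → d T = 0 := by
    intro T hT
    obtain ⟨j, hj⟩ := Finset.nonempty_iff_ne_empty.2 hT
    have h5 := congrFun (h1 j (Finset.mem_univ j)) T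
    unfold cj at h5
    rw [if_pos hj] at h5
    exact neg_eq_self.1 h5
  refine ⟨d ∅, fun v => ?_, ?_, fun S _ g θ h => ?_⟩
  · have h5 := h2 ∅ v
    rw [Finset.card_univ, ← hn] at h5
    have h6 : 2 ^ n * Fv f v ≤ C := by
      rw [hC]
      have h7 : Fv f v ≤ ∑ v, Fv f v := Finset.single_le_sum (fun _ _ => Nat.zero_le _)
        (Finset.mem_univ v)
      have h8 : 2 ^ n * Fv f v ≤ 2 ^ n * (1 + ∑ v, Fv f v) := Nat.mul_le_mul_left _ (by omega)
      omega
    have h9 : 2 ^ n * δ v ≤ C * δ v := Nat.mul_le_mul_right _ hCpos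
    rw [mul_add] at h5 ⊢
    omega
  · have h5 := h3 ∅
    rw [Finset.card_univ, ← hn] at h5
    have h6 : len (d ∅) ≤ Mv f * len (d ∅) := le_mul_of_one_le_left (len_nonneg _) hM
    refine h6.trans (h5.trans ?_)
    have h7 : Mv f * L ≤ C * L := mul_le_mul_of_nonneg_right hMC (by linarith)
    have h8 : 1 ≤ (C : ℝ) * L := by nlinarith
    exact (pow_le_pow_left₀ (by positivity) h7 _).trans (pow_le_pow_right₀ h8 hCpos)
  · have h5 : ev g θ d = g (d ∅) := by
      unfold ev
      rw [Finset.sum_eq_single ∅]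
      · simp
      · intro T _ hT
        rw [hd T hT, map_zero, zero_mul]
      · intro h6
        exact absurd (Finset.mem_univ _) h6
    rw [← h5, h4 S g θ h]
    refine Finset.prod_bij' (fun U _ => fun j => decide (j ∉ U))
      (fun e _ => Finset.univ.filter fun j => e j = false) (fun _ _ => Finset.mem_univ _)
      (fun _ _ => Finset.mem_powerset.2 (Finset.subset_univ _)) ?_ ?_ ?_
    · intro U _
      ext j
      simp
    · intro e _
      funext j
      simp
    · intro U _
      rw [eval₂_multi g _ G hG]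
      congr 1
      funext j
      unfold fl
      by_cases hj : j ∈ U <;> simp [hj]

end Pool.Agent.J4H75.GC
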