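import Pool.Agent.J4H75.GC.Mmf

/-!
# Project GC: part VAL (expansion of the value of the auxiliary polynomial)
-/

set_option autoImplicit false

open MvPolynomial Height Filter NumberField

namespace Pool.Agent.J4H75.GC

open Pool.Agent.J4H27.GC

section val

variable {K : Type} [Field K] [NumberField K] {S : Type} [CommRing S] (g : 𝓞 K →+* S)

/-- evaluation of the polynomials in three variables -/
noncomputable def ro (X0 : S) (y : Fin 2 → S) : M3 K →+* S := eval₂Hom g (Fin.cons X0 y)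

lemma ro_C (X0 : S) (y : Fin 2 → S) (c : 𝓞 K) : ro g X0 y (C c) = g c := by
  unfold ro
  rw [coe_eval₂Hom, eval₂_C]

lemma ro_X0 (X0 : S) (y : Fin 2 → S) : ro g X0 y (X 0) = X0 := by
  unfold ro
  rw [coe_eval₂Hom, eval₂_X]
  rfl

lemma ro_Xs (X0 : S) (y : Fin 2 → S) (j : Fin 2) : ro g X0 y (X j.succ) = y j := by
  unfold ro
  rw [coe_eval₂Hom, eval₂_X, Fin.cons_succ]

lemma ro_fin (X0 : S) (y : Fin 2 → S) (P : M3 K) :
    ro g X0 y P = (finSuccEquiv (𝓞 K) 2 P).eval₂ (eval₂Hom g y) X0 := by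
  have h : ro g X0 y = ((Polynomial.eval₂RingHom (eval₂Hom g y) X0).comp
      (finSuccEquiv (𝓞 K) 2).toRingEquiv.toRingHom) := by
    refine MvPolynomial.ringHom_ext (fun c => ?_) (fun i => ?_)
    · rw [ro_C, RingHom.comp_apply]
      have h1 : (finSuccEquiv (𝓞 K) 2).toRingEquiv.toRingHom (C c) =
          Polynomial.C (C c) := by
        change finSuccEquiv (𝓞 K) 2 (C c) = Polynomial.C (C c)
        rw [finSuccEquiv_apply, coe_eval₂Hom, eval₂_C, RingHom.comp_apply]
      rw [h1, Polynomial.coe_eval₂RingHom, Polynomial.eval₂_C, coe_eval₂Hom, eval₂_C]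
    · refine Fin.cases ?_ (fun j => ?_) i
      · rw [ro_X0, RingHom.comp_apply]
        have h1 : (finSuccEquiv (𝓞 K) 2).toRingEquiv.toRingHom (X 0) =
            Polynomial.X := finSuccEquiv_X_zero
        rw [h1, Polynomial.coe_eval₂RingHom, Polynomial.eval₂_X]
      · rw [ro_Xs, RingHom.comp_apply]
        have h1 : (finSuccEquiv (𝓞 K) 2).toRingEquiv.toRingHom (X j.succ) =
            Polynomial.C (X j) := finSuccEquiv_X_succ
        rw [h1, Polynomial.coe_eval₂RingHom, Polynomial.eval₂_C, coe_eval₂Hom, eval₂_X]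
  rw [h]
  rfl

lemma ro_range (X0 : S) (y : Fin 2 → S) (P : M3 K) (N : ℕ)
    (hN : ∀ i, N ≤ i → (finSuccEquiv (𝓞 K) 2 P).coeff i = 0) :
    ro g X0 y P = ∑ i ∈ Finset.range N,
      ((finSuccEquiv (𝓞 K) 2 P).coeff i).eval₂ g y * X0 ^ i := by
  rw [ro_fin, Polynomial.eval₂_eq_sum_range' (eval₂Hom g y) (n := N + 1) ?_ X0,
    Finset.sum_range_succ, hN N le_rfl, map_zero, zero_mul, add_zero]
  · rfl
  · by_cases h0 : finSuccEquiv (𝓞 K) 2 P = 0
    · rw [h0, Polynomial.natDegree_zero]
      omega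
    · by_contra hlt
      push Not at hlt
      have h1 := hN _ (Nat.le_of_succ_le hlt)
      exact h0 (Polynomial.leadingCoeff_eq_zero.1 h1)

variable (a b : Fin 2 → 𝓞 K)

/-- evaluation of the elements of the quadratic extension -/
noncomputable def eQ (X0 : S) (y : Fin 2 → S) (t : S) (j : Fin 2) (q : QQ (a j) (b j) j) : S :=
  ro g X0 y q.re + ro g X0 y q.im * t

variable {a b} {X0 : S} {y : Fin 2 → S} {t : S} {j : Fin 2}

lemma eQ_one : eQ g a b X0 y t j 1 = 1 := by
  unfold eQ
  rw [QuadraticAlgebra.re_one, QuadraticAlgebra.im_one, map_one, map_zero]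
  ring

lemma eQ_mul (ht : t ^ 2 = ro g X0 y (ff (a j) (b j) j)) (q q' : QQ (a j) (b j) j) :
    eQ g a b X0 y t j (q * q') = eQ g a b X0 y t j q * eQ g a b X0 y t j q' := by
  unfold eQ
  rw [QuadraticAlgebra.re_mul, QuadraticAlgebra.im_mul, zero_mul, zero_mul, add_zero]
  simp only [map_add, map_mul]
  linear_combination (-(ro g X0 y q.im * ro g X0 y q'.im)) * ht

lemma eQ_pow (ht : t ^ 2 = ro g X0 y (ff (a j) (b j) j)) (q : QQ (a j) (b j) j) (n : ℕ) :
    eQ g a b X0 y t j (q ^ n) = eQ g a b X0 y t j q ^ n := by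
  induction n with
  | zero => rw [pow_zero, pow_zero, eQ_one]
  | succ n ih => rw [pow_succ, pow_succ, eQ_mul g ht, ih]

lemma ro_ff : ro g X0 y (ff (a j) (b j) j) = (X0 ^ 3 + g (a j) * X0 + g (b j)) *
    (y j ^ 3 + g (a j) * y j + g (b j)) := by
  unfold ff fX
  simp only [map_mul, map_add, map_pow, ro_C, ro_X0, ro_Xs]

lemma ro_aeval (P : Polynomial (𝓞 K)) :
    ro g X0 y (Polynomial.aeval (X j.succ) P) = P.eval₂ g (y j) := by
  rw [Polynomial.aeval_def, Polynomial.hom_eval₂, ro_Xs]
  congr 1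
  ext c
  rw [RingHom.comp_apply, MvPolynomial.algebraMap_eq, ro_C]

variable (a b) in
lemma eQ_rows (k : ℕ) :
    let p := (phi (a j) (b j) k).eval₂ g (y j)
    let q := (psi (a j) (b j) k).eval₂ g (y j)
    let o := (om (a j) (b j) k).eval₂ g (y j)
    let N := (X0 * q + p) * (X0 * p + g (a j) * q) + 2 * g (b j) * q ^ 2
    eQ g a b X0 y t j (eP (a j) (b j) j k) = N + 2 * t * o ∧
    eQ g a b X0 y t j (eM (a j) (b j) j k) = N - 2 * t * o ∧
    eQ g a b X0 y t j (eA (a j) (b j) j k) = (X0 * q - p) ^ 2 ∧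
    eQ g a b X0 y t j (eC (a j) (b j) j k) =
      (X0 * p - g (a j) * q) ^ 2 - 4 * g (b j) * q * (X0 * q + p) := by
  have hp : ro g X0 y (pj (a j) (b j) j k) = (phi (a j) (b j) k).eval₂ g (y j) := ro_aeval g _
  have hq : ro g X0 y (qj (a j) (b j) j k) = (psi (a j) (b j) k).eval₂ g (y j) := ro_aeval g _
  have ho : ro g X0 y (oj (a j) (b j) j k) = (om (a j) (b j) k).eval₂ g (y j) := ro_aeval g _
  refine ⟨?_, ?_, ?_, ?_⟩
  · unfold eQ eP al
    simp only [map_mul, map_add, map_pow, ro_C, ro_X0, hp, hq, ho, map_ofNat]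
    ring
  · unfold eQ eM al
    simp only [map_mul, map_add, map_pow, map_neg, ro_C, ro_X0, hp, hq, ho, map_ofNat]
    ring
  · unfold eQ eA
    simp only [map_mul, map_sub, map_pow, map_zero, ro_X0, hp, hq]
    ring
  · unfold eQ eC
    simp only [map_mul, map_add, map_sub, map_pow, map_zero, ro_C, ro_X0, hp, hq, map_ofNat]
    ring

end val

theorem t_VAL : S_VAL := by
  classical
  intro K _ _ a b m D k S _ g x h hE r F
  set y : Fin 2 → S := fun j => x (none, j) with hy
  have hrow : ∀ (i : Fin m) (j : Fin 2) (n : ℕ), n ≤ D i →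
      rv a b D k g x h (r i j) i j n =
        ∑ c ∈ Finset.range (2 * D i + 1) ×ˢ (Finset.univ : Finset Bool),
          (mm a b (r i j) j (k i) (D i) n c).eval₂ g y *
            (x (some i, j) ^ c.1 * if c.2 then h (some i, j) * h (none, j) else 1) := by
    intro i j n hn
    set t : S := h (some i, j) * h (none, j) with ht0
    have ht : t ^ 2 = ro g (x (some i, j)) y (ff (a j) (b j) j) := by
      rw [ro_ff, ht0, mul_pow, hE (some i, j), hE (none, j)]
    have h1 : rv a b D k g x h (r i j) i j n =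
        eQ g a b (x (some i, j)) y t j (rw1 a b (r i j) j (k i) (D i) n) := by
      obtain ⟨hP, hM, hA, hC⟩ := eQ_rows (X0 := x (some i, j)) (y := y) (t := t) (j := j) g a b
        (k i)
      unfold rv rw1
      cases r i j
      · simp only [Bool.false_eq_true, if_false]
        rw [eQ_mul g ht, eQ_pow g ht, eQ_pow g ht, hM, hC]
        congr 2
        rw [ht0]
        ring
      · simp only [if_true]
        rw [eQ_mul g ht, eQ_pow g ht, eQ_pow g ht, hP, hA]
        congr 2
        rw [ht0]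
        ring
    obtain ⟨C0, -, hMM⟩ := t_MMF K a b
    have h0 := fun c => (hMM (r i j) j (k i) (D i) n c hn).1
    have hre : ro g (x (some i, j)) y (rw1 a b (r i j) j (k i) (D i) n).re =
        ∑ l ∈ Finset.range (2 * D i + 1), (mm a b (r i j) j (k i) (D i) n (l, false)).eval₂ g y *
          x (some i, j) ^ l :=
      ro_range g _ _ _ _ (fun l hl => h0 (l, false) (Nat.lt_of_succ_le hl))
    have him : ro g (x (some i, j)) y (rw1 a b (r i j) j (k i) (D i) n).im =
        ∑ l ∈ Finset.range (2 * D i + 1), (mm a b (r i j) j (k i) (D i) n (l, true)).eval₂ g y *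
          x (some i, j) ^ l :=
      ro_range g _ _ _ _ (fun l hl => h0 (l, true) (Nat.lt_of_succ_le hl))
    rw [h1]
    unfold eQ
    rw [hre, him, Finset.sum_product, Finset.sum_mul, ← Finset.sum_add_distrib]
    refine Finset.sum_congr rfl (fun l _ => ?_)
    rw [Fintype.sum_bool]
    simp only [Bool.false_eq_true, if_false, if_true]
    ring
  unfold Val
  have h2 : ∀ n : NN D, (F n).eval₂ g y * ∏ i, ∏ j, rv a b D k g x h (r i j) i j (n i j) =
      ∑ κ ∈ Kp D, (F n).eval₂ g y * ∏ i, ∏ j,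
        ((mm a b (r i j) j (k i) (D i) (n i j) (κ i j)).eval₂ g y *
          (x (some i, j) ^ (κ i j).1 *
            if (κ i j).2 then h (some i, j) * h (none, j) else 1)) := by
    intro n
    rw [← Finset.mul_sum]
    congr 1
    unfold Kp
    rw [← Finset.prod_univ_sum (fun i => Fintype.piFinset fun _ : Fin 2 =>
        Finset.range (2 * D i + 1) ×ˢ (Finset.univ : Finset Bool))
      (fun i (p : Fin 2 → ℕ × Bool) => ∏ j,
        ((mm a b (r i j) j (k i) (D i) (n i j) (p j)).eval₂ g y *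
          (x (some i, j) ^ (p j).1 *
            if (p j).2 then h (some i, j) * h (none, j) else 1)))]
    refine Finset.prod_congr rfl (fun i _ => ?_)
    rw [← Finset.prod_univ_sum (fun _ : Fin 2 =>
        Finset.range (2 * D i + 1) ×ˢ (Finset.univ : Finset Bool))
      (fun j (c : ℕ × Bool) =>
        ((mm a b (r i j) j (k i) (D i) (n i j) c).eval₂ g y *
          (x (some i, j) ^ c.1 *
            if c.2 then h (some i, j) * h (none, j) else 1)))]
    refine Finset.prod_congr rfl (fun j _ => ?_)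
    exact hrow i j (n i j) (Nat.lt_succ_iff.1 (n i j).2)
  rw [Finset.sum_congr rfl (fun n _ => h2 n), Finset.sum_comm]
  refine Finset.sum_congr rfl (fun κ _ => ?_)
  unfold GG
  have h3 : ∀ P : NN D → MvPolynomial (Fin 2) (𝓞 K),
      (∑ n, P n).eval₂ g y = ∑ n, (P n).eval₂ g y := fun P => by
    have := map_sum (eval₂Hom g y) P Finset.univ
    simpa only [coe_eval₂Hom] using this
  rw [h3, Finset.sum_mul]
  refine Finset.sum_congr rfl (fun n _ => ?_)
  have h4 : (F n * ∏ i, ∏ j, mm a b (r i j) j (k i) (D i) (n i j) (κ i j)).eval₂ g y =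
      (F n).eval₂ g y * ∏ i, ∏ j, (mm a b (r i j) j (k i) (D i) (n i j) (κ i j)).eval₂ g y := by
    have h5 : eval₂Hom g y (F n * ∏ i, ∏ j, mm a b (r i j) j (k i) (D i) (n i j) (κ i j)) =
      eval₂Hom g y (F n) *
        ∏ i, ∏ j, eval₂Hom g y (mm a b (r i j) j (k i) (D i) (n i j) (κ i j)) := by
      rw [map_mul, map_prod]
      congr 1
      exact Finset.prod_congr rfl (fun i _ => map_prod _ _ _)
    simpa only [coe_eval₂Hom] using h5
  rw [h4, mul_assoc]
  congr 1
  rw [← Finset.prod_mul_distrib]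
  refine Finset.prod_congr rfl (fun i _ => ?_)
  rw [← Finset.prod_mul_distrib]

end Pool.Agent.J4H75.GC
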