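import Pool.Agent.J4H27.GC.Defs3

/-!
# Project GC: parts MMF and VAL
-/

set_option autoImplicit false

open MvPolynomial Height Filter NumberField

namespace Pool.Agent.J4H75.GC

open Pool.Agent.J4H27.GC

section mmf

variable {K : Type} [Field K] [NumberField K]

lemma len_coeff_le {n : ℕ} (P : MvPolynomial (Fin (n + 1)) (𝓞 K)) (i : ℕ) :
    len ((finSuccEquiv (𝓞 K) n P).coeff i) ≤ len P := by
  classical
  have h1 : len ((finSuccEquiv (𝓞 K) n P).coeff i) =
      ∑ s ∈ (((finSuccEquiv (𝓞 K) n P).coeff i).support).map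
        ⟨fun s => s.cons i, Finsupp.cons_right_injective i⟩, hs (P.coeff s) := by
    rw [len_def, Finset.sum_map]
    refine Finset.sum_congr rfl (fun s _ => ?_)
    rw [finSuccEquiv_coeff_coeff]
    rfl
  rw [h1, len_def]
  refine Finset.sum_le_sum_of_subset_of_nonneg (fun s hs' => ?_) (fun _ _ _ => hs_nonneg _)
  rw [Finset.mem_map] at hs'
  obtain ⟨t, ht, rfl⟩ := hs'
  rw [mem_support_iff, finSuccEquiv_coeff_coeff] at ht
  rw [mem_support_iff]
  exact ht

variable (a b : Fin 2 → 𝓞 K)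

lemma WQ_rw1 (r : Bool) (j : Fin 2) (k D n : ℕ) (h : n ≤ D) :
    WQ (fun i => D * wr j k i) (rw1 a b r j k D n) := by
  have key : ∀ q q' : QQ (a j) (b j) j, WQ (wr j k) q → WQ (wr j k) q' →
      WQ (fun i => D * wr j k i) (q ^ n * q' ^ (D - n)) := by
    intro q q' hq hq'
    have := (hq.pow n).mul (hq'.pow (D - n))
    convert this using 2
    rw [← Nat.add_mul, Nat.add_sub_cancel' h]
  unfold rw1
  cases r
  · exact key _ _ (WQ_C _ _ _ _) (WQ_M _ _ _ _)
  · exact key _ _ (WQ_P _ _ _ _) (WQ_A _ _ _ _)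

lemma ln_rw1 (r : Bool) (j : Fin 2) (k D n : ℕ) (h : n ≤ D) :
    ln (rw1 a b r j k D n) ≤ cR (a j) (b j) j ^ (4 ^ k * D) := by
  obtain ⟨hA, hP, hM, hC⟩ := ln_rows (a j) (b j) j k
  have key : ∀ q q' : QQ (a j) (b j) j, ln q ≤ cR (a j) (b j) j ^ (4 ^ k) →
      ln q' ≤ cR (a j) (b j) j ^ (4 ^ k) →
      ln (q ^ n * q' ^ (D - n)) ≤ cR (a j) (b j) j ^ (4 ^ k * D) := by
    intro q q' hq hq'
    have h0 : (0 : ℝ) ≤ cR (a j) (b j) j ^ (4 ^ k) :=
      pow_nonneg (zero_le_one.trans one_le_cR) _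
    have h1 := mul_le_mul ((ln_pow q n).trans (pow_le_pow_left₀ (ln_nonneg _) hq n))
      ((ln_pow q' (D - n)).trans (pow_le_pow_left₀ (ln_nonneg _) hq' (D - n)))
      (ln_nonneg _) (pow_nonneg h0 _)
    refine (ln_mul _ _).trans (h1.trans (le_of_eq ?_))
    rw [← pow_add, Nat.add_sub_cancel' h, ← pow_mul]
  unfold rw1
  cases r
  · exact key _ _ hC hM
  · exact key _ _ hP hA

lemma SB_part (r : Bool) (j : Fin 2) (k D n : ℕ) (c : Bool) (h : n ≤ D) :
    SB (fun _ => 0) (fun i => D * wr j k i)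
      (if c then (rw1 a b r j k D n).im else (rw1 a b r j k D n).re) := by
  obtain ⟨h1, h2⟩ := WQ_rw1 a b r j k D n h
  cases c
  · exact h1
  · exact h2.mono (fun i => by omega)

theorem t_MMF : S_MMF := by
  intro K _ _ a b
  have c0 := one_le_cR (a := a 0) (b := b 0) (j := 0)
  have c1 := one_le_cR (a := a 1) (b := b 1) (j := 1)
  refine ⟨cR (a 0) (b 0) 0 + cR (a 1) (b 1) 1, by linarith, fun r j k D n κ h => ⟨?_, ?_, ?_⟩⟩
  · intro hκ
    refine MvPolynomial.ext _ _ (fun s => ?_)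
    rw [coeff_zero]
    unfold mm
    rw [finSuccEquiv_coeff_coeff]
    by_contra h0
    have h1 := SB_part a b r j k D n κ.2 h _ (mem_support_iff.2 h0) 0
    rw [Finsupp.cons_zero] at h1
    beta_reduce at h1
    have h2 : wr j k 0 = 4 := by simp [wr]
    rw [h2] at h1
    omega
  · intro s hs' j'
    unfold mm at hs'
    rw [mem_support_iff, finSuccEquiv_coeff_coeff] at hs'
    have h1 := SB_part a b r j k D n κ.2 h _ (mem_support_iff.2 hs') j'.succ
    rw [Finsupp.cons_succ] at h1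
    beta_reduce at h1
    by_cases hj : j' = j
    · subst hj
      rw [if_pos rfl]
      have h2 : wr j' k j'.succ = 4 * 4 ^ k := by
        simp [wr]
      rw [h2] at h1
      have h3 : D * (4 * 4 ^ k) = 4 * (4 ^ k * D) := by ring
      omega
    · rw [if_neg hj]
      have h2 : wr j k j'.succ = 0 := by
        simp [wr, hj]
      rw [h2] at h1
      omega
  · unfold mm
    refine (len_coeff_le _ _).trans ?_
    have h1 : len (if κ.2 then (rw1 a b r j k D n).im else (rw1 a b r j k D n).re) ≤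
        ln (rw1 a b r j k D n) := by
      cases κ.2
      · exact re_le_ln _
      · exact im_le_ln _
    refine h1.trans ((ln_rw1 a b r j k D n h).trans ?_)
    refine pow_le_pow_left₀ (zero_le_one.trans one_le_cR) ?_ _
    fin_cases j
    · simp only [Fin.zero_eta, Fin.isValue]
      linarith
    · simp only [Fin.mk_one, Fin.isValue]
      linarith

end mmf

end Pool.Agent.J4H75.GC
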